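import Pool.Agent.R992.HC.Poly

open scoped InnerProductSpace ComplexConjugate ENNReal

namespace Pool.Agent.R992.HC

/-- approximate location of the stationary point -/
noncomputable def zt : ℂ := ⟨-0.61545, -0.78817⟩

theorem exists_z0 : ∃ z : ℂ, z * conj z = 1 ∧ conj (p0 z) = p0 z ∧
    |z.re + 0.61545| ≤ 2e-5 ∧ |z.im + 0.78817| ≤ 2e-5 := by
  set Q : ℝ → ℝ := fun t =>
    4 * ((1 - t ^ 2) ^ 4 - 6 * (1 - t ^ 2) ^ 2 * (2 * t) ^ 2 + (2 * t) ^ 4)
      + 3 * (1 + t ^ 2) * ((1 - t ^ 2) ^ 3 - 3 * (1 - t ^ 2) * (2 * t) ^ 2)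
      - (1 + t ^ 2) ^ 3 * (2 * t) with hQ
  have hcont : ContinuousOn Q (Set.Icc (-2.04965) (-2.04955)) := by
    apply Continuous.continuousOn
    rw [hQ]
    fun_prop
  have hle : (-2.04965 : ℝ) ≤ -2.04955 := by norm_num
  have hq1 : Q (-2.04965) ≤ 0 ∨ 0 ≤ Q (-2.04965) := le_total _ _
  have hroot : ∃ t ∈ Set.Icc (-2.04965 : ℝ) (-2.04955), Q t = 0 := by
    have h1 := intermediate_value_Icc hle hcont
    have h2 := intermediate_value_Icc' hle hcont
    first
      | exact h1 (by constructor <;> (simp only [hQ]; norm_num))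
      | exact h2 (by constructor <;> (simp only [hQ]; norm_num))
  obtain ⟨t, ⟨ht1, ht2⟩, hQt⟩ := hroot
  have hD : (0:ℝ) < 1 + t ^ 2 := by positivity
  refine ⟨⟨(1 - t ^ 2) / (1 + t ^ 2), 2 * t / (1 + t ^ 2)⟩, ?_, ?_, ?_, ?_⟩
  · apply Complex.ext
    · simp
      field_simp
      ring
    · simp
      ring
  · rw [Complex.conj_eq_iff_im]
    have hx : (p0 ⟨(1 - t ^ 2) / (1 + t ^ 2), 2 * t / (1 + t ^ 2)⟩).im = Q t / (1 + t ^ 2) ^ 4 := by
      simp only [p0, pow_succ, pow_zero, one_mul, Complex.sub_im, Complex.mul_im, Complex.mul_re,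
        Complex.I_re, Complex.I_im, Complex.add_re, Complex.add_im, hQ]
      simp
      field_simp
      ring
    rw [hx, hQt, zero_div]
  · simp only
    have hsq1 : (4.20065:ℝ) ≤ t ^ 2 := by nlinarith
    have hsq2 : t ^ 2 ≤ 4.20107 := by nlinarith
    rw [abs_le]
    constructor
    · rw [← sub_nonneg]
      have : (1 - t ^ 2) / (1 + t ^ 2) + 0.61545 - -2e-5 =
        ((1 - t ^ 2) + (0.61545 + 2e-5) * (1 + t ^ 2)) / (1 + t ^ 2) := by
        field_simp
        ring
      rw [this]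
      apply div_nonneg _ hD.le
      nlinarith
    · rw [← sub_nonneg]
      have : 2e-5 - ((1 - t ^ 2) / (1 + t ^ 2) + 0.61545) =
        ((2e-5 - 0.61545) * (1 + t ^ 2) - (1 - t ^ 2)) / (1 + t ^ 2) := by
        field_simp
        ring
      rw [this]
      apply div_nonneg _ hD.le
      nlinarith
  · simp only
    have hsq1 : (4.20065:ℝ) ≤ t ^ 2 := by nlinarith
    have hsq2 : t ^ 2 ≤ 4.20107 := by nlinarith
    rw [abs_le]
    constructor
    · rw [← sub_nonneg]
      have : 2 * t / (1 + t ^ 2) + 0.78817 - -2e-5 =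
        (2 * t + (0.78817 + 2e-5) * (1 + t ^ 2)) / (1 + t ^ 2) := by
        field_simp
        ring
      rw [this]
      apply div_nonneg _ hD.le
      nlinarith
    · rw [← sub_nonneg]
      have : 2e-5 - (2 * t / (1 + t ^ 2) + 0.78817) =
        ((2e-5 - 0.78817) * (1 + t ^ 2) - 2 * t) / (1 + t ^ 2) := by
        field_simp
        ring
      rw [this]
      apply div_nonneg _ hD.le
      nlinarith

end Pool.Agent.R992.HC
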