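import Pool.Agent.R992.HC.Cert

open scoped InnerProductSpace ComplexConjugate ENNReal

namespace Pool.Agent.R992.HC

noncomputable def q0 : ℂ := ⟨1.341, 0⟩
noncomputable def q1 : ℂ := ⟨-0.259, 0.9206⟩
noncomputable def q2 : ℂ := ⟨-0.4306, -0.5057⟩
noncomputable def q3 : ℂ := ⟨0.5877, -0.4589⟩

noncomputable def s0 : ℂ := conj q0 * q0 + conj q1 * q1 + conj q2 * q2 + conj q3 * q3
noncomputable def s1 : ℂ := conj q0 * q1 + conj q1 * q2 + conj q2 * q3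
noncomputable def s2 : ℂ := conj q0 * q2 + conj q1 * q3
noncomputable def s3 : ℂ := conj q0 * q3

theorem cert1 : ‖p1 zt - s1‖ ≤ 6e-5 := by
  refine (Complex.norm_le_abs_re_add_abs_im _).trans ?_
  simp only [p1, zt, s1, q0, q1, q2, q3, pow_succ, pow_zero, one_mul, Complex.sub_im,
    Complex.sub_re, Complex.mul_im, Complex.mul_re, Complex.I_re, Complex.I_im, Complex.add_re,
    Complex.add_im, Complex.conj_re, Complex.conj_im, Complex.re_ofNat, Complex.im_ofNat]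
  norm_num [abs_le]

theorem cert2 : ‖p2 zt - s2‖ ≤ 5e-5 := by
  refine (Complex.norm_le_abs_re_add_abs_im _).trans ?_
  simp only [p2, zt, s2, q0, q1, q2, q3, pow_succ, pow_zero, one_mul, Complex.sub_im,
    Complex.sub_re, Complex.mul_im, Complex.mul_re, Complex.I_re, Complex.I_im, Complex.add_re,
    Complex.add_im, Complex.conj_re, Complex.conj_im, Complex.re_ofNat, Complex.im_ofNat,
    Complex.one_re, Complex.one_im]
  norm_num [abs_le]

theorem cert3 : ‖p3 zt - s3‖ ≤ 1.3e-4 := by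
  refine (Complex.norm_le_abs_re_add_abs_im _).trans ?_
  simp only [p3, zt, s3, q0, q1, q2, q3, pow_succ, pow_zero, one_mul, Complex.sub_im,
    Complex.sub_re, Complex.mul_im, Complex.mul_re, Complex.I_re, Complex.I_im, Complex.add_re,
    Complex.add_im, Complex.conj_re, Complex.conj_im, Complex.re_ofNat, Complex.im_ofNat]
  norm_num [abs_le]

theorem cert0 : 5.05e-3 ≤ (p0 zt - s0).re := by
  simp only [p0, zt, s0, q0, q1, q2, q3, pow_succ, pow_zero, one_mul, Complex.sub_im,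
    Complex.sub_re, Complex.mul_im, Complex.mul_re, Complex.I_re, Complex.I_im, Complex.add_re,
    Complex.add_im, Complex.conj_re, Complex.conj_im, Complex.re_ofNat, Complex.im_ofNat]
  norm_num

theorem norm_zt_le : ‖zt‖ ≤ 1 := by
  have h : ‖zt‖ ^ 2 ≤ 1 := by
    rw [Complex.sq_norm, Complex.normSq_apply]
    simp only [zt]
    norm_num
  nlinarith [norm_nonneg zt]

theorem cert_all (z : ℂ) (hz : ‖z‖ = 1) (h1 : |z.re + 0.61545| ≤ 2e-5)
    (h2 : |z.im + 0.78817| ≤ 2e-5) :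
    ‖p1 z - s1‖ ≤ 6e-4 ∧ ‖p2 z - s2‖ ≤ 3e-4 ∧ ‖p3 z - s3‖ ≤ 2e-4 ∧ 3.5e-3 ≤ (p0 z - s0).re := by
  have he : ‖z - zt‖ ≤ 4e-5 := by
    refine (Complex.norm_le_abs_re_add_abs_im _).trans ?_
    have a1 : (z - zt).re = z.re + 0.61545 := by simp [zt]
    have a2 : (z - zt).im = z.im + 0.78817 := by simp [zt]
    rw [a1, a2]
    linarith
  have hzt := norm_zt_le
  have hz1 : ‖z‖ ≤ 1 := hz.le
  have nI : ‖Complex.I‖ = 1 := by simp
  have n2 : ‖(2:ℂ)‖ = 2 := by simp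
  have n3 : ‖(3:ℂ)‖ = 3 := by simp
  have n4 : ‖(4:ℂ)‖ = 4 := by simp
  have k2 : ‖z + zt‖ ≤ 2 := (norm_add_le _ _).trans (by linarith)
  have kzz : ‖z * zt‖ ≤ 1 := by
    rw [norm_mul]; nlinarith [norm_nonneg z, norm_nonneg zt]
  have kz2 : ‖z ^ 2‖ ≤ 1 := by rw [norm_pow, hz]; norm_num
  have kt2 : ‖zt ^ 2‖ ≤ 1 := by rw [norm_pow]; exact pow_le_one₀ (norm_nonneg _) hzt
  have k3 : ‖z ^ 2 + z * zt + zt ^ 2‖ ≤ 3 := by
    refine (norm_add_le _ _).trans ?_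
    have := norm_add_le (z ^ 2) (z * zt)
    linarith
  have kzz2 : ‖z ^ 2 + zt ^ 2‖ ≤ 2 := (norm_add_le _ _).trans (by linarith)
  have k4 : ‖(z + zt) * (z ^ 2 + zt ^ 2)‖ ≤ 4 := by
    rw [norm_mul]; nlinarith [norm_nonneg (z + zt), norm_nonneg (z ^ 2 + zt ^ 2)]
  have b1 : ‖p1 z - p1 zt‖ ≤ 13 * 4e-5 := by
    have e : p1 z - p1 zt = Complex.I * (z - zt) * (3 * (z ^ 2 + z * zt + zt ^ 2) + 2 * (z + zt)) := by
      unfold p1; ring
    rw [e, norm_mul, norm_mul, nI, one_mul]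
    have : ‖3 * (z ^ 2 + z * zt + zt ^ 2) + 2 * (z + zt)‖ ≤ 13 := by
      refine (norm_add_le _ _).trans ?_
      rw [norm_mul, norm_mul, n3, n2]
      linarith
    nlinarith [norm_nonneg (z - zt), norm_nonneg (3 * (z ^ 2 + z * zt + zt ^ 2) + 2 * (z + zt))]
  have b2 : ‖p2 z - p2 zt‖ ≤ 5 * 4e-5 := by
    have e : p2 z - p2 zt = Complex.I * (z - zt) * (2 * (z + zt) + 1) := by
      unfold p2; ring
    rw [e, norm_mul, norm_mul, nI, one_mul]
    have : ‖2 * (z + zt) + 1‖ ≤ 5 := by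
      refine (norm_add_le _ _).trans ?_
      rw [norm_mul, n2, norm_one]
      linarith
    nlinarith [norm_nonneg (z - zt), norm_nonneg (2 * (z + zt) + 1)]
  have b3 : ‖p3 z - p3 zt‖ ≤ 4e-5 := by
    have e : p3 z - p3 zt = Complex.I * (z - zt) := by
      unfold p3; ring
    rw [e, norm_mul, nI, one_mul]
    exact he
  have b0 : ‖p0 z - p0 zt‖ ≤ 26 * 4e-5 := by
    have e : p0 z - p0 zt = (z - zt) * (Complex.I * (4 * ((z + zt) * (z ^ 2 + zt ^ 2))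
        + 3 * (z ^ 2 + z * zt + zt ^ 2)) - 1) := by
      unfold p0; ring
    rw [e, norm_mul]
    have : ‖Complex.I * (4 * ((z + zt) * (z ^ 2 + zt ^ 2))
        + 3 * (z ^ 2 + z * zt + zt ^ 2)) - 1‖ ≤ 26 := by
      refine (norm_sub_le _ _).trans ?_
      rw [norm_mul, nI, one_mul, norm_one]
      have := norm_add_le (4 * ((z + zt) * (z ^ 2 + zt ^ 2))) (3 * (z ^ 2 + z * zt + zt ^ 2))
      rw [norm_mul 4, norm_mul 3, n4, n3] at this
      linarith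
    nlinarith [norm_nonneg (z - zt), norm_nonneg (Complex.I * (4 * ((z + zt) * (z ^ 2 + zt ^ 2))
        + 3 * (z ^ 2 + z * zt + zt ^ 2)) - 1)]
  refine ⟨?_, ?_, ?_, ?_⟩
  · have := norm_add_le (p1 z - p1 zt) (p1 zt - s1)
    rw [sub_add_sub_cancel] at this
    linarith [cert1]
  · have := norm_add_le (p2 z - p2 zt) (p2 zt - s2)
    rw [sub_add_sub_cancel] at this
    linarith [cert2]
  · have := norm_add_le (p3 z - p3 zt) (p3 zt - s3)
    rw [sub_add_sub_cancel] at this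
    linarith [cert3]
  · have h3 : (p0 z - s0).re = (p0 zt - s0).re + (p0 z - p0 zt).re := by simp
    have h4 := (abs_le.mp (Complex.abs_re_le_norm (p0 z - p0 zt))).1
    rw [h3]
    linarith [cert0]

/-- The main inequality: below the threshold the symbol dominates an explicit square. -/
theorem main_ineq (z : ℂ) (hz : z * conj z = 1) (hp : conj (p0 z) = p0 z)
    (h1 : |z.re + 0.61545| ≤ 2e-5) (h2 : |z.im + 0.78817| ≤ 2e-5) (x : HH) :
    ‖q0 • (sh 1 x - z • x) + q1 • sh 1 (sh 1 x - z • x) + q2 • sh 2 (sh 1 x - z • x)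
      + q3 • sh 3 (sh 1 x - z • x)‖ ^ 2 ≤ ‖Lst Complex.I x‖ ^ 2 - (cval z).re * ‖x‖ ^ 2 := by
  have hzn : ‖z‖ = 1 := by
    have : (‖z‖ ^ 2 : ℝ) = 1 := by
      have h := Complex.mul_conj' z
      rw [hz] at h
      exact_mod_cast h.symm
    nlinarith [norm_nonneg z]
  obtain ⟨c1, c2, c3, c0⟩ := cert_all z hzn h1 h2
  have hT := taylor z hz hp x
  set w := sh 1 x - z • x with hw
  have hP := norm_psi_sq q0 q1 q2 q3 w
  have hww : ⟪w, w⟫_ℂ = ((‖w‖ ^ 2 : ℝ) : ℂ) := (normsq_complex w).symm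
  have hxx : ⟪x, x⟫_ℂ = ((‖x‖ ^ 2 : ℝ) : ℂ) := (normsq_complex x).symm
  rw [hww] at hT hP
  rw [hxx] at hT
  have hT' := congrArg Complex.re hT
  have hP' := congrArg Complex.re hP
  change _ = (_ : ℂ).re at hP'
  have e0 : (conj q0 * q0 + conj q1 * q1 + conj q2 * q2 + conj q3 * q3) = s0 := rfl
  have e1 : (conj q0 * q1 + conj q1 * q2 + conj q2 * q3) = s1 := rfl
  have e2 : (conj q0 * q2 + conj q1 * q3) = s2 := rfl
  have e3 : (conj q0 * q3) = s3 := rfl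
  rw [e0, e1, e2, e3] at hP'
  set R1 := ⟪w, sh 1 w⟫_ℂ
  set R2 := ⟪w, sh 2 w⟫_ℂ
  set R3 := ⟪w, sh 3 w⟫_ℂ
  have n1 : ‖R1‖ ≤ ‖w‖ ^ 2 := norm_inner_sh_le 1 w
  have n2 : ‖R2‖ ≤ ‖w‖ ^ 2 := norm_inner_sh_le 2 w
  have n3 : ‖R3‖ ≤ ‖w‖ ^ 2 := norm_inner_sh_le 3 w
  have hW : 0 ≤ ‖w‖ ^ 2 := by positivity
  have m1 : |((p1 z - s1) * R1).re| ≤ 6e-4 * ‖w‖ ^ 2 := by
    refine (Complex.abs_re_le_norm _).trans ?_
    rw [norm_mul]
    exact mul_le_mul c1 n1 (norm_nonneg _) (by norm_num)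
  have m2 : |((p2 z - s2) * R2).re| ≤ 3e-4 * ‖w‖ ^ 2 := by
    refine (Complex.abs_re_le_norm _).trans ?_
    rw [norm_mul]
    exact mul_le_mul c2 n2 (norm_nonneg _) (by norm_num)
  have m3 : |((p3 z - s3) * R3).re| ≤ 2e-4 * ‖w‖ ^ 2 := by
    refine (Complex.abs_re_le_norm _).trans ?_
    rw [norm_mul]
    exact mul_le_mul c3 n3 (norm_nonneg _) (by norm_num)
  have d1 : ((p1 z - s1) * R1).re = (p1 z * R1).re - (s1 * R1).re := by rw [sub_mul]; rfl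
  have d2 : ((p2 z - s2) * R2).re = (p2 z * R2).re - (s2 * R2).re := by rw [sub_mul]; rfl
  have d3 : ((p3 z - s3) * R3).re = (p3 z * R3).re - (s3 * R3).re := by rw [sub_mul]; rfl
  have d0 : (p0 z - s0).re = (p0 z).re - s0.re := rfl
  rw [d1] at m1
  rw [d2] at m2
  rw [d3] at m3
  rw [d0] at c0
  have f0 : (p0 z * ((‖w‖ ^ 2 : ℝ) : ℂ)).re = (p0 z).re * ‖w‖ ^ 2 := by
    rw [Complex.re_mul_ofReal]
  have f0' : (s0 * ((‖w‖ ^ 2 : ℝ) : ℂ)).re = s0.re * ‖w‖ ^ 2 := by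
    rw [Complex.re_mul_ofReal]
  have f1 : (cval z * ((‖x‖ ^ 2 : ℝ) : ℂ)).re = (cval z).re * ‖x‖ ^ 2 := by
    rw [Complex.re_mul_ofReal]
  simp only [Complex.add_re, Complex.sub_re, Complex.conj_re, f0, f0', f1,
    Complex.ofReal_re] at hT' hP'
  rw [hP', hT']
  have k1 := (abs_le.mp m1).1
  have k2 := (abs_le.mp m2).1
  have k3 := (abs_le.mp m3).1
  nlinarith

end Pool.Agent.R992.HC
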