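import Mathlib

open scoped InnerProductSpace

namespace Pool.Agent.R992.HC

/-- The basis vector `(√3/2, 1/2)` of the triangular lattice; the plane is `ℂ`, with
`(x, y)` written `x + i y`. -/
noncomputable def vA : ℂ := ⟨√3 / 2, 1 / 2⟩

/-- The basis vector `(√3/2, -1/2)` of the triangular lattice. -/
noncomputable def vB : ℂ := ⟨√3 / 2, -(1 / 2)⟩

/-- The A-sites of the honeycomb. -/
def sitesA : Set ℂ := {x | ∃ p q : ℤ, x = p * vA + q * vB}

/-- The B-sites of the honeycomb. -/
def sitesB : Set ℂ := {x | ∃ p q : ℤ, x = ⟨1 / √3, 0⟩ + (p * vA + q * vB)}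

/-- The honeycomb. -/
def honeycomb : Set ℂ := sitesA ∪ sitesB

/-- The direction `a v₁ + b v₂` of the rational edge given by `(a, b)`. -/
noncomputable def edgeVec (a b : ℤ) : ℂ := a * vA + b * vB

/-- The sites of the honeycomb in the closed half-plane `{x | c ≤ ⟪u, x⟫}`. -/
def halfSites (u : ℂ) (c : ℝ) : Set ℂ := {x | x ∈ honeycomb ∧ c ≤ ⟪u, x⟫_ℝ}

/-- The edge Hamiltonian: the sum of `ψ` over the nearest neighbours of `x` in the set `S` of
sites. -/
noncomputable def edgeHam (S : Set ℂ) (ψ : ℂ → ℂ) (x : ℂ) : ℂ :=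
  ∑ᶠ y ∈ {y | y ∈ S ∧ dist y x = 1 / √3}, ψ y

/-- `ψ` is a `k`-edge state of energy `E` for the edge with period vector `v` and half-plane
`{x | c ≤ ⟪u, x⟫}`. A function on the sites of the half-plane is written as a function on the
plane that vanishes off those sites; square summability is over the sites in the strip
`0 ≤ ⟪v, x⟫ < ‖v‖²`, which contains one site of each class modulo `v`. -/
structure IsEdgeState (v u : ℂ) (c : ℝ) (k : Real.Angle) (E : ℝ) (ψ : ℂ → ℂ) : Prop where
  supp : ∀ x, x ∉ halfSites u c → ψ x = 0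
  ne_zero : ψ ≠ 0
  quasi : ∀ x ∈ halfSites u c, ψ (x + v) = (k.toCircle : ℂ) * ψ x
  summable : Summable (fun x : {x : ℂ // x ∈ halfSites u c ∧ 0 ≤ ⟪v, x⟫_ℝ ∧ ⟪v, x⟫_ℝ < ‖v‖ ^ 2} =>
    ‖ψ x‖ ^ 2)
  eigen : ∀ x ∈ halfSites u c, edgeHam (halfSites u c) ψ x = E * ψ x

/-- `E` is a continuous branch of `k`-edge state eigenvalues on the open arc `I` of the circle
(an open arc is a nonempty connected open subset of the circle; the whole circle is allowed). -/
structure IsBranch (v u : ℂ) (c : ℝ) (I : Set Real.Angle) (E : Real.Angle → ℝ) : Prop where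
  isOpen : IsOpen I
  isConnected : IsConnected I
  cont : ContinuousOn E I
  eig : ∀ k ∈ I, ∃ ψ, IsEdgeState v u c k (E k) ψ

/-- Edge state curves: the branches which have no extension to a larger open arc. -/
def IsEdgeStateCurve (v u : ℂ) (c : ℝ) (I : Set Real.Angle) (E : Real.Angle → ℝ) : Prop :=
  IsBranch v u c I E ∧
    ∀ I' E', IsBranch v u c I' E' → I ⊆ I' → Set.EqOn E' E I → I' = I

/-- The quasimomenta `κ · v` modulo `2π` of the band crossings, `κ` ranging over the Dirac points.-/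
def crossings (v : ℂ) : Set Real.Angle :=
  {k | ∃ κ : ℂ, 1 + Complex.exp (Complex.I * ⟪κ, vA⟫_ℝ) + Complex.exp (Complex.I * ⟪κ, vB⟫_ℝ) = 0 ∧
    k = ((⟪κ, v⟫_ℝ : ℝ) : Real.Angle)}

/-- The conclusion of Q1 for one curve: `I` is the image of an interval `(α, β)` with
`α < β ≤ α + 2π` (in particular it is not the whole circle) and at both ends `(k, E k)` converges
to a band crossing. -/
def JoinsCrossings (v : ℂ) (I : Set Real.Angle) (E : Real.Angle → ℝ) : Prop :=
  ∃ α β : ℝ, α < β ∧ β ≤ α + 2 * Real.pi ∧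
    I = (fun t : ℝ => (t : Real.Angle)) '' Set.Ioo α β ∧
    ((α : Real.Angle) ∈ crossings v ∧
      Filter.Tendsto (fun t : ℝ => E t) (nhdsWithin α (Set.Ioi α)) (nhds 0)) ∧
    ((β : Real.Angle) ∈ crossings v ∧
      Filter.Tendsto (fun t : ℝ => E t) (nhdsWithin β (Set.Iio β)) (nhds 0))

/-- Question Q1: for every rational edge, every edge state curve emerges from and terminates in
a band crossing. -/
def Q1 : Prop :=
  ∀ a b : ℤ, IsCoprime a b → ∀ (u : ℂ) (c : ℝ), u ≠ 0 → ⟪u, edgeVec a b⟫_ℝ = 0 →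
    ∀ (I : Set Real.Angle) (E : Real.Angle → ℝ), IsEdgeStateCurve (edgeVec a b) u c I E →
      JoinsCrossings (edgeVec a b) I E

end Pool.Agent.R992.HC
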