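import Pool.Agent.R992.HC.Poly

open scoped InnerProductSpace ComplexConjugate ENNReal

namespace Pool.Agent.R992.HC

theorem summable_of_support {f : ℤ → ℂ} (s : Finset ℤ) (h : ∀ n ∉ s, f n = 0) :
    Summable (fun n => ‖f n‖ ^ 2) :=
  summable_of_ne_finset_zero (s := s) (fun n hn => by simp [h n hn])

/-- The part of `a` at the sites `1, 2`. -/
noncomputable def head2 (a : HH) : HH :=
  mk2 (fun n => if n = 1 then a 1 else if n = 2 then a 2 else 0)
    (summable_of_support {1, 2} (by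
      intro n hn
      simp only [Finset.mem_insert, Finset.mem_singleton, not_or] at hn
      simp [hn.1, hn.2]))

theorem head2_apply (a : HH) (n : ℤ) :
    (head2 a) n = if n = 1 then a 1 else if n = 2 then a 2 else 0 := rfl

/-- `Lst` as a linear map. -/
noncomputable def LstL (w : ℂ) : HH →ₗ[ℂ] HH :=
  LinearMap.id + (sh 1).toLinearMap + w • (sh (-3)).toLinearMap

theorem LstL_apply (w : ℂ) (x : HH) : LstL w x = Lst w x := rfl

theorem Lst_sh (w : ℂ) (j : ℤ) (a : HH) : Lst w (sh j a) = sh j (Lst w a) := by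
  simp only [Lst, map_add, map_smul, sh_sh, add_comm j]

theorem key_inner (w : ℂ) (a : HH) (lam : ℝ) (ha : ∀ n ≤ 0, a n = 0)
    (heq : ∀ n ≥ 1, (Lop (conj w) (Lst w a)) n = lam * a n + (head2 a) n) (m : ℕ) :
    ⟪Lst w (sh m a), Lst w a⟫_ℂ - lam * ⟪sh m a, a⟫_ℂ = ⟪sh m (head2 a), head2 a⟫_ℂ := by
  have h1 : ⟪Lst w (sh m a), Lst w a⟫_ℂ = ⟪sh m a, Lop (conj w) (Lst w a)⟫_ℂ := Lst_adj _ _ _
  have h2 : ⟪sh m a, Lop (conj w) (Lst w a) - (lam : ℂ) • a - head2 a⟫_ℂ = 0 := by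
    apply inner_eq_zero_of_disjoint
    intro n
    by_cases hn : n ≤ 0
    · left
      rw [sh_apply]
      apply ha
      omega
    · right
      have := heq n (by omega)
      simp only [lp.coeFn_sub, lp.coeFn_smul, Pi.sub_apply, Pi.smul_apply, smul_eq_mul]
      rw [this]
      ring
  have h3 : ⟪sh m (a - head2 a), head2 a⟫_ℂ = 0 := by
    apply inner_eq_zero_of_disjoint
    intro n
    by_cases hn : n ≤ 2
    · left
      rw [sh_apply]
      simp only [lp.coeFn_sub, Pi.sub_apply, head2_apply]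
      by_cases h1 : n - (m:ℤ) = 1
      · simp [h1]
      · by_cases h2 : n - (m:ℤ) = 2
        · simp [h2]
        · simp only [h1, h2, if_false, sub_zero]
          apply ha
          omega
    · right
      rw [head2_apply, if_neg (by omega), if_neg (by omega)]
  rw [map_sub, inner_sub_left, sub_eq_zero] at h3
  rw [inner_sub_right, inner_sub_right, inner_smul_right] at h2
  rw [h1, ← h3]
  linear_combination h2

theorem key_inner2 (w : ℂ) (a : HH) (lam : ℝ) (ha : ∀ n ≤ 0, a n = 0)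
    (heq : ∀ n ≥ 1, (Lop (conj w) (Lst w a)) n = lam * a n + (head2 a) n) (i j : ℕ) :
    ⟪Lst w (sh i a), Lst w (sh j a)⟫_ℂ - lam * ⟪sh i a, sh j a⟫_ℂ =
      ⟪sh i (head2 a), sh j (head2 a)⟫_ℂ := by
  have main : ∀ i j : ℕ, j ≤ i → ⟪Lst w (sh i a), Lst w (sh j a)⟫_ℂ - lam * ⟪sh i a, sh j a⟫_ℂ =
      ⟪sh i (head2 a), sh j (head2 a)⟫_ℂ := by
    intro i j hij
    obtain ⟨m, rfl⟩ := Nat.exists_eq_add_of_le hij
    have e : ∀ y : HH, sh ((j + m : ℕ) : ℤ) y = sh j (sh m y) := by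
      intro y; rw [sh_sh]; push_cast; rfl
    rw [e, e, Lst_sh w j, Lst_sh w j, LinearIsometry.inner_map_map, LinearIsometry.inner_map_map,
      LinearIsometry.inner_map_map]
    exact key_inner w a lam ha heq m
  rcases le_total j i with h | h
  · exact main i j h
  · have := congrArg conj (main j i h)
    rw [map_sub, map_mul, inner_conj_symm, inner_conj_symm, inner_conj_symm,
      Complex.conj_ofReal] at this
    exact this

theorem key_sum (w : ℂ) (a : HH) (lam : ℝ) (ha : ∀ n ≤ 0, a n = 0)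
    (heq : ∀ n ≥ 1, (Lop (conj w) (Lst w a)) n = lam * a n + (head2 a) n) (ζ : ℂ) (N : ℕ) :
    ‖Lst w (∑ j ∈ Finset.range N, ζ ^ j • sh j a)‖ ^ 2
      - lam * ‖∑ j ∈ Finset.range N, ζ ^ j • sh j a‖ ^ 2 =
      ‖∑ j ∈ Finset.range N, ζ ^ j • sh j (head2 a)‖ ^ 2 := by
  have hL : Lst w (∑ j ∈ Finset.range N, ζ ^ j • sh j a) =
      ∑ j ∈ Finset.range N, ζ ^ j • Lst w (sh j a) := by
    rw [← LstL_apply, map_sum]
    apply Finset.sum_congr rfl
    intro j _
    rw [map_smul, LstL_apply]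
  have expand : ∀ A : ℕ → HH, ((‖∑ j ∈ Finset.range N, ζ ^ j • A j‖ ^ 2 : ℝ) : ℂ) =
      ∑ i ∈ Finset.range N, ∑ j ∈ Finset.range N, conj (ζ ^ i) * (ζ ^ j * ⟪A i, A j⟫_ℂ) := by
    intro A
    rw [normsq_complex, sum_inner]
    apply Finset.sum_congr rfl
    intro i _
    rw [inner_sum]
    apply Finset.sum_congr rfl
    intro j _
    rw [inner_smul_left, inner_smul_right]
  have : ((‖Lst w (∑ j ∈ Finset.range N, ζ ^ j • sh j a)‖ ^ 2
      - lam * ‖∑ j ∈ Finset.range N, ζ ^ j • sh j a‖ ^ 2 : ℝ) : ℂ) =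
      ((‖∑ j ∈ Finset.range N, ζ ^ j • sh j (head2 a)‖ ^ 2 : ℝ) : ℂ) := by
    rw [Complex.ofReal_sub, Complex.ofReal_mul, hL, expand (fun j => Lst w (sh j a)),
      expand (fun j => sh j a), expand (fun j => sh j (head2 a)), Finset.mul_sum,
      ← Finset.sum_sub_distrib]
    apply Finset.sum_congr rfl
    intro i _
    rw [Finset.mul_sum, ← Finset.sum_sub_distrib]
    apply Finset.sum_congr rfl
    intro j _
    rw [← key_inner2 w a lam ha heq i j]
    ring
  exact_mod_cast this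

theorem geom_shift (ζ : ℂ) (a : HH) (N : ℕ) :
    (∑ j ∈ Finset.range N, ζ ^ j • sh j a) - ζ • sh 1 (∑ j ∈ Finset.range N, ζ ^ j • sh j a) =
      a - ζ ^ N • sh N a := by
  induction N with
  | zero => simp
  | succ N ih =>
    rw [Finset.sum_range_succ, map_add, smul_add]
    have h1 : ζ • sh 1 (ζ ^ N • sh N a) = ζ ^ (N + 1) • sh ((N + 1 : ℕ) : ℤ) a := by
      rw [map_smul, smul_smul, sh_sh]
      congr 1
      · ring
      · push_cast; congr 2; ring
    rw [h1]
    have := ih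
    calc _ = ((∑ j ∈ Finset.range N, ζ ^ j • sh j a)
          - ζ • sh 1 (∑ j ∈ Finset.range N, ζ ^ j • sh j a)) + ζ ^ N • sh N a
          - ζ ^ (N + 1) • sh ((N + 1 : ℕ) : ℤ) a := by abel
      _ = _ := by rw [ih]; abel

theorem upper (w z1 : ℂ) (hw : ‖w‖ = 1) (hz1 : z1 * conj z1 = 1) (a : HH) (N : ℕ) :
    ‖Lst w (∑ j ∈ Finset.range N, (conj z1) ^ j • sh j a)‖ ≤
      ‖w + z1 ^ 3 + z1 ^ 4‖ * ‖∑ j ∈ Finset.range N, (conj z1) ^ j • sh j a‖ + 14 * ‖a‖ := by
  set x := ∑ j ∈ Finset.range N, (conj z1) ^ j • sh j a with hx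
  have hg := geom_shift (conj z1) a N
  rw [← hx] at hg
  have hzn : ‖z1‖ = 1 := by
    have : (‖z1‖ ^ 2 : ℝ) = 1 := by
      have h := Complex.mul_conj' z1
      rw [hz1] at h
      exact_mod_cast h.symm
    nlinarith [norm_nonneg z1]
  have e1 : ‖sh 1 x - z1 • x‖ ≤ 2 * ‖a‖ := by
    have : sh 1 x - z1 • x = -(z1 • (a - (conj z1) ^ N • sh N a)) := by
      rw [← hg, smul_sub, smul_smul, hz1, one_smul]
      abel
    rw [this, norm_neg, norm_smul, hzn, one_mul]
    refine (norm_sub_le _ _).trans ?_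
    rw [norm_smul, norm_pow, Complex.norm_conj, hzn, one_pow, one_mul, LinearIsometry.norm_map]
    linarith
  have em : ∀ m : ℕ, ‖sh m x - z1 ^ m • x‖ ≤ m * (2 * ‖a‖) := by
    intro m
    induction m with
    | zero => simp
    | succ m ih =>
      have : sh ((m + 1 : ℕ) : ℤ) x - z1 ^ (m + 1) • x =
          z1 • (sh m x - z1 ^ m • x) + sh m (sh 1 x - z1 • x) := by
        rw [map_sub, map_smul, sh_sh, smul_sub, smul_smul, pow_succ']
        push_cast
        abel
      rw [this]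
      refine (norm_add_le _ _).trans ?_
      rw [norm_smul, hzn, one_mul, LinearIsometry.norm_map]
      push_cast
      linarith
  have e3 := em 3
  have e4 := em 4
  have h5 : ‖Lst w x‖ = ‖w • x + sh 3 x + sh 4 x‖ := by
    rw [← LinearIsometry.norm_map (sh 3) (Lst w x)]
    congr 1
    simp only [Lst, map_add, map_smul, sh_sh]
    norm_num
    abel
  rw [h5]
  have h6 : w • x + sh 3 x + sh 4 x = (w + z1 ^ 3 + z1 ^ 4) • x
      + ((sh 3 x - z1 ^ 3 • x) + (sh 4 x - z1 ^ 4 • x)) := by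
    rw [add_smul, add_smul]; abel
  rw [h6]
  refine (norm_add_le _ _).trans ?_
  rw [norm_smul]
  have h7 := norm_add_le (sh 3 x - z1 ^ 3 • x) (sh 4 x - z1 ^ 4 • x)
  push_cast at e3 e4
  linarith

theorem lower (a : HH) (ζ : ℂ) (hζ : ‖ζ‖ = 1) (N : ℕ) :
    (N : ℝ) * ‖ζ * a 1 + a 2‖ ^ 2 ≤
      ‖∑ j ∈ Finset.range (N + 1), ζ ^ j • sh j (head2 a)‖ ^ 2 := by
  set u := ∑ j ∈ Finset.range (N + 1), ζ ^ j • sh j (head2 a) with hu
  have hcoord : ∀ k : ℕ, k < N → u ((k : ℤ) + 2) = ζ ^ k * (ζ * a 1 + a 2) := by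
    intro k hk
    have h1 : u ((k : ℤ) + 2) = ∑ j ∈ Finset.range (N + 1), ζ ^ j * (head2 a) ((k : ℤ) + 2 - j) := by
      rw [hu, lp.coeFn_sum, Finset.sum_apply]
      apply Finset.sum_congr rfl
      intro j _
      simp
    rw [h1]
    have h2 : ∀ j ∈ Finset.range (N + 1), ζ ^ j * (head2 a) ((k : ℤ) + 2 - j) =
        (if j = k + 1 then ζ ^ (k + 1) * a 1 else 0) + (if j = k then ζ ^ k * a 2 else 0) := by
      intro j _
      rw [head2_apply]
      by_cases hj1 : j = k + 1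
      · subst hj1
        rw [if_pos (by push_cast; ring), if_pos rfl, if_neg (by omega), add_zero]
      · by_cases hj2 : j = k
        · subst hj2
          rw [if_neg (by omega), if_pos (by ring), if_neg (by omega), if_pos rfl, zero_add]
        · rw [if_neg (by omega), if_neg (by omega), if_neg hj1, if_neg hj2]
          simp
    rw [Finset.sum_congr rfl h2, Finset.sum_add_distrib, Finset.sum_ite_eq' , Finset.sum_ite_eq']
    rw [if_pos (by rw [Finset.mem_range]; omega), if_pos (by rw [Finset.mem_range]; omega)]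
    ring
  have hle := sum_sq_le u ((Finset.range N).image (fun k : ℕ => (k : ℤ) + 2))
  rw [Finset.sum_image (by intro i _ j _ h; simpa using h)] at hle
  refine le_trans (le_of_eq ?_) hle
  have : ∀ k ∈ Finset.range N, ‖u ((k : ℤ) + 2)‖ ^ 2 = ‖ζ * a 1 + a 2‖ ^ 2 := by
    intro k hk
    rw [hcoord k (Finset.mem_range.mp hk), norm_mul, norm_pow, hζ, one_pow, one_mul]
  rw [Finset.sum_congr rfl this]
  simp

/-- Embedded eigenvalues: if `|g(z1)|^2 < lam` then the boundary vector vanishes at `z1`. -/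
theorem embedded (w z1 : ℂ) (hw : ‖w‖ = 1) (hz1 : z1 * conj z1 = 1) (a : HH) (lam : ℝ)
    (ha : ∀ n ≤ 0, a n = 0)
    (heq : ∀ n ≥ 1, (Lop (conj w) (Lst w a)) n = lam * a n + (head2 a) n)
    (hlam : ‖w + z1 ^ 3 + z1 ^ 4‖ ^ 2 < lam) : conj z1 * a 1 + a 2 = 0 := by
  have hzn : ‖z1‖ = 1 := by
    have : (‖z1‖ ^ 2 : ℝ) = 1 := by
      have h := Complex.mul_conj' z1
      rw [hz1] at h
      exact_mod_cast h.symm
    nlinarith [norm_nonneg z1]
  have hζ : ‖conj z1‖ = 1 := by rw [Complex.norm_conj, hzn]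
  by_contra hne
  set G := ‖w + z1 ^ 3 + z1 ^ 4‖ with hG
  set T := ‖conj z1 * a 1 + a 2‖ ^ 2 with hT
  have hTpos : 0 < T := by
    have : 0 < ‖conj z1 * a 1 + a 2‖ := norm_pos_iff.mpr hne
    positivity
  have hdpos : 0 < lam - G ^ 2 := by linarith
  set M := (14 * G * ‖a‖) ^ 2 / (lam - G ^ 2) + (14 * ‖a‖) ^ 2 with hM
  have hbound : ∀ N : ℕ, (N : ℝ) * T ≤ M := by
    intro N
    have h1 := lower a (conj z1) hζ N
    have h2 := key_sum w a lam ha heq (conj z1) (N + 1)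
    have h3 := upper w z1 hw hz1 a (N + 1)
    set X := ‖∑ j ∈ Finset.range (N + 1), (conj z1) ^ j • sh j a‖ with hX
    have hX0 : 0 ≤ X := norm_nonneg _
    have hG0 : 0 ≤ G := norm_nonneg _
    have hA0 : 0 ≤ ‖a‖ := norm_nonneg _
    rw [← h2] at h1
    have h4 : ‖Lst w (∑ j ∈ Finset.range (N + 1), (conj z1) ^ j • sh j a)‖ ^ 2 ≤
        (G * X + 14 * ‖a‖) ^ 2 := by
      apply pow_le_pow_left₀ (norm_nonneg _) h3
    refine h1.trans ?_
    refine (sub_le_sub_right h4 _).trans ?_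
    have h5 : (G * X + 14 * ‖a‖) ^ 2 - lam * X ^ 2 =
        M - ((lam - G ^ 2) * X - 14 * G * ‖a‖) ^ 2 / (lam - G ^ 2) := by
      rw [hM]
      field_simp
      ring
    rw [h5]
    have : 0 ≤ ((lam - G ^ 2) * X - 14 * G * ‖a‖) ^ 2 / (lam - G ^ 2) := by positivity
    linarith
  obtain ⟨N, hN⟩ := exists_nat_gt (M / T)
  have := hbound N
  rw [div_lt_iff₀ hTpos] at hN
  linarith

end Pool.Agent.R992.HC
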