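import Pool.Agent.R992.HC.NoState

open scoped InnerProductSpace ComplexConjugate ENNReal Topology

namespace Pool.Agent.R992.HC

/-- The quadratic form `‖D* x‖²`. -/
noncomputable def qf (w : ℂ) (x : HH) : ℝ := ‖Lst w x‖ ^ 2 - ‖x 1‖ ^ 2 - ‖x 2‖ ^ 2

/-- vanishing at nonpositive sites -/
def VV (x : HH) : Prop := ∀ n ≤ 0, x n = 0

theorem VV_add {x y : HH} (hx : VV x) (hy : VV y) : VV (x + y) := by
  intro n hn; simp only [lp.coeFn_add, Pi.add_apply, hx n hn, hy n hn, add_zero]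

theorem VV_sub {x y : HH} (hx : VV x) (hy : VV y) : VV (x - y) := by
  intro n hn; simp only [lp.coeFn_sub, Pi.sub_apply, hx n hn, hy n hn, sub_zero]

theorem VV_smul (c : ℂ) {x : HH} (hx : VV x) : VV (c • x) := by
  intro n hn; simp only [lp.coeFn_smul, Pi.smul_apply, hx n hn, smul_zero]

theorem Lst_neg_coords (w : ℂ) (x : HH) (hx : VV x) :
    (Lst w x) (-1) = w * x 2 ∧ (Lst w x) (-2) = w * x 1 := by
  constructor
  · rw [Lst_apply, hx (-1) (by norm_num), hx (-1 - 1) (by norm_num), show (-1:ℤ) + 3 = 2 from rfl]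
    ring
  · rw [Lst_apply, hx (-2) (by norm_num), hx (-2 - 1) (by norm_num), show (-2:ℤ) + 3 = 1 from rfl]
    ring

theorem coord_sq_le_qf (w : ℂ) (hw : ‖w‖ = 1) (x : HH) (hx : VV x) (n : ℤ) (hn : 0 ≤ n) :
    ‖(Lst w x) n‖ ^ 2 ≤ qf w x := by
  have h := sum_sq_le (Lst w x) {n, -1, -2}
  rw [Finset.sum_insert (by simp; omega), Finset.sum_pair (by norm_num),
    (Lst_neg_coords w x hx).1, (Lst_neg_coords w x hx).2, norm_mul, norm_mul, hw, one_mul,
    one_mul] at h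
  unfold qf
  linarith

theorem qf_nonneg (w : ℂ) (hw : ‖w‖ = 1) (x : HH) (hx : VV x) : 0 ≤ qf w x :=
  le_trans (by positivity) (coord_sq_le_qf w hw x hx 0 le_rfl)

theorem qf_smul (w : ℂ) (c : ℂ) (x : HH) : qf w (c • x) = ‖c‖ ^ 2 * qf w x := by
  unfold qf
  rw [← LstL_apply, map_smul, LstL_apply, norm_smul]
  simp only [lp.coeFn_smul, Pi.smul_apply, smul_eq_mul, norm_mul]
  ring

theorem norm_Lst_le (w : ℂ) (hw : ‖w‖ = 1) (x : HH) : ‖Lst w x‖ ≤ 3 * ‖x‖ := by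
  unfold Lst
  refine (norm_add_le _ _).trans ?_
  have := norm_add_le x (sh 1 x)
  rw [LinearIsometry.norm_map] at this
  rw [norm_smul, hw, one_mul, LinearIsometry.norm_map]
  linarith

theorem Lst_sub_param (w w' : ℂ) (x : HH) : Lst w x - Lst w' x = (w - w') • sh (-3) x := by
  unfold Lst
  rw [sub_smul]
  abel

theorem norm_Lst_param (w w' : ℂ) (x : HH) : ‖Lst w x‖ ≤ ‖Lst w' x‖ + ‖w - w'‖ * ‖x‖ := by
  have h : Lst w x = Lst w' x + (w - w') • sh (-3) x := by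
    rw [← Lst_sub_param]; abel
  rw [h]
  refine (norm_add_le _ _).trans ?_
  rw [norm_smul, LinearIsometry.norm_map]

theorem qf_param (w w' : ℂ) (hw : ‖w‖ = 1) (hw' : ‖w'‖ = 1) (x : HH) (hx : ‖x‖ = 1) :
    qf w x ≤ qf w' x + 6 * ‖w - w'‖ := by
  have h1 := norm_Lst_param w w' x
  have h2 := norm_Lst_le w hw x
  have h3 := norm_Lst_le w' hw' x
  rw [hx] at h1 h2 h3
  have h4 : ‖Lst w x‖ ^ 2 - ‖Lst w' x‖ ^ 2 ≤ 6 * ‖w - w'‖ := by
    have h5 : ‖Lst w x‖ - ‖Lst w' x‖ ≤ ‖w - w'‖ := by linarith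
    have h6 : 0 ≤ ‖Lst w x‖ + ‖Lst w' x‖ := by positivity
    have h7 : ‖Lst w x‖ + ‖Lst w' x‖ ≤ 6 := by linarith
    have h8 : 0 ≤ ‖w - w'‖ := norm_nonneg _
    nlinarith
  unfold qf
  linarith

/-- the bottom of the form -/
noncomputable def lamInf (w : ℂ) : ℝ := sInf (qf w '' {x : HH | VV x ∧ ‖x‖ = 1})

/-- The delta sequence. -/
noncomputable def del (m : ℤ) : HH :=
  mk2 (fun n => if n = m then 1 else 0) (summable_of_support {m} (by
    intro n hn
    simp only [Finset.mem_singleton] at hn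
    simp [hn]))

theorem del_apply (m n : ℤ) : (del m) n = if n = m then 1 else 0 := rfl

theorem inner_del (m : ℤ) (x : HH) : ⟪del m, x⟫_ℂ = x m := by
  rw [inner_eq, tsum_eq_single m]
  · simp [del_apply]
  · intro n hn; rw [del_apply, if_neg hn, inner_zero_left]

theorem norm_del (m : ℤ) : ‖del m‖ = 1 := by
  have : ‖del m‖ ^ 2 = 1 := by
    rw [norm_sq_of_support (del m) {m}]
    · simp [del_apply]
    · intro n hn; simp only [Finset.mem_singleton] at hn; rw [del_apply, if_neg hn]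
  nlinarith [norm_nonneg (del m)]

theorem VV_del {m : ℤ} (hm : 1 ≤ m) : VV (del m) := by
  intro n hn; rw [del_apply, if_neg (by omega)]

theorem set_nonempty (w : ℂ) : (qf w '' {x : HH | VV x ∧ ‖x‖ = 1}).Nonempty :=
  ⟨_, del 1, ⟨VV_del le_rfl, norm_del 1⟩, rfl⟩

theorem set_bdd (w : ℂ) (hw : ‖w‖ = 1) : BddBelow (qf w '' {x : HH | VV x ∧ ‖x‖ = 1}) := by
  refine ⟨0, ?_⟩
  rintro _ ⟨x, hx, rfl⟩
  exact qf_nonneg w hw x hx.1

theorem lamInf_nonneg (w : ℂ) (hw : ‖w‖ = 1) : 0 ≤ lamInf w := by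
  apply le_csInf (set_nonempty w)
  rintro _ ⟨x, hx, rfl⟩
  exact qf_nonneg w hw x hx.1

theorem lamInf_le (w : ℂ) (hw : ‖w‖ = 1) (y : HH) (hy : VV y) : lamInf w * ‖y‖ ^ 2 ≤ qf w y := by
  by_cases h0 : y = 0
  · subst h0
    have := qf_nonneg w hw 0 hy
    simpa using this
  · have hn : 0 < ‖y‖ := norm_pos_iff.mpr h0
    have h1 : lamInf w ≤ qf w ((((‖y‖)⁻¹ : ℝ) : ℂ) • y) := by
      apply csInf_le (set_bdd w hw)
      refine ⟨_, ⟨VV_smul _ hy, ?_⟩, rfl⟩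
      rw [norm_smul, Complex.norm_real, norm_inv, norm_norm]
      field_simp
    rw [qf_smul, Complex.norm_real, norm_inv, norm_norm] at h1
    have h2 := mul_le_mul_of_nonneg_right h1 (sq_nonneg ‖y‖)
    have h3 : (‖y‖⁻¹) ^ 2 * qf w y * ‖y‖ ^ 2 = qf w y := by
      field_simp
    linarith

theorem lamInf_param (w w' : ℂ) (hw : ‖w‖ = 1) (hw' : ‖w'‖ = 1) :
    lamInf w ≤ lamInf w' + 6 * ‖w - w'‖ := by
  rw [← sub_le_iff_le_add]
  apply le_csInf (set_nonempty w')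
  rintro _ ⟨x, hx, rfl⟩
  rw [sub_le_iff_le_add]
  refine le_trans ?_ (qf_param w w' hw hw' x hx.2)
  exact csInf_le (set_bdd w hw) ⟨x, hx, rfl⟩

theorem qf_parallelogram (w : ℂ) (x y : HH) :
    qf w (x - y) + qf w (x + y) = 2 * qf w x + 2 * qf w y := by
  unfold qf
  have h1 : Lst w (x - y) = Lst w x - Lst w y := by
    rw [← LstL_apply, map_sub, LstL_apply, LstL_apply]
  have h2 : Lst w (x + y) = Lst w x + Lst w y := by
    rw [← LstL_apply, map_add, LstL_apply, LstL_apply]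
  rw [h1, h2]
  have e1 := parallelogram_law_with_norm ℂ (Lst w x) (Lst w y)
  have e2 := parallelogram_law_with_norm ℂ (x 1) (y 1)
  have e3 := parallelogram_law_with_norm ℂ (x 2) (y 2)
  simp only [lp.coeFn_sub, lp.coeFn_add, Pi.sub_apply, Pi.add_apply]
  nlinarith

theorem coord_tendsto {x : ℕ → HH} {y : HH} (h : Filter.Tendsto x Filter.atTop (𝓝 y)) (n : ℤ) :
    Filter.Tendsto (fun j => (x j) n) Filter.atTop (𝓝 (y n)) := by
  rw [tendsto_iff_norm_sub_tendsto_zero] at h ⊢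
  refine squeeze_zero (fun j => norm_nonneg _) (fun j => ?_) h
  have := coord_le (x j - y) n
  simpa only [lp.coeFn_sub, Pi.sub_apply] using this

/-- The infimum is attained below the essential spectrum. -/
theorem exists_min (w : ℂ) (hw : ‖w‖ = 1) (c0 : ℝ) (hlow : ∀ x : HH, c0 * ‖x‖ ^ 2 ≤ ‖Lst w x‖ ^ 2)
    (hlt : lamInf w < c0) : ∃ x : HH, VV x ∧ ‖x‖ = 1 ∧ qf w x = lamInf w := by
  set L := lamInf w with hL
  have hseq : ∀ j : ℕ, ∃ x : HH, VV x ∧ ‖x‖ = 1 ∧ qf w x < L + 1 / ((j : ℝ) + 1) := by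
    intro j
    have hpos : (0:ℝ) < 1 / ((j : ℝ) + 1) := by positivity
    obtain ⟨_, ⟨x, hx, rfl⟩, hx2⟩ := Real.lt_sInf_add_pos (set_nonempty w) hpos
    exact ⟨x, hx.1, hx.2, hx2⟩
  choose x hxV hxn hxq using hseq
  have hbdd : Bornology.IsBounded (Set.range (fun j => ((x j) 1, (x j) 2))) := by
    rw [isBounded_iff_forall_norm_le]
    refine ⟨1, ?_⟩
    rintro _ ⟨j, rfl⟩
    rw [Prod.norm_def]
    apply max_le
    · exact (coord_le (x j) 1).trans (hxn j).le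
    · exact (coord_le (x j) 2).trans (hxn j).le
  obtain ⟨⟨α, β⟩, _, φ, hφ, hlim⟩ := tendsto_subseq_of_bounded hbdd (fun j => Set.mem_range_self j)
  have hα : Filter.Tendsto (fun j => (x (φ j)) 1) Filter.atTop (𝓝 α) :=
    (Prod.tendsto_iff _ _).mp hlim |>.1
  have hβ : Filter.Tendsto (fun j => (x (φ j)) 2) Filter.atTop (𝓝 β) :=
    (Prod.tendsto_iff _ _).mp hlim |>.2
  have hqlim : Filter.Tendsto (fun j => qf w (x (φ j))) Filter.atTop (𝓝 L) := by
    have h1 : Filter.Tendsto (fun j : ℕ => L + 1 / ((φ j : ℝ) + 1)) Filter.atTop (𝓝 (L + 0)) := by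
      apply Filter.Tendsto.const_add
      exact (tendsto_one_div_add_atTop_nhds_zero_nat).comp hφ.tendsto_atTop
    rw [add_zero] at h1
    refine tendsto_of_tendsto_of_tendsto_of_le_of_le tendsto_const_nhds h1 ?_ ?_
    · intro j
      have := lamInf_le w hw (x (φ j)) (hxV _)
      rw [hxn, one_pow, mul_one] at this
      exact this
    · intro j; exact (hxq (φ j)).le
  set B : ℕ → ℝ := fun j => 2 * (qf w (x (φ j)) - L) + 2 * ‖(x (φ j)) 1 - α‖ ^ 2
    + 2 * ‖(x (φ j)) 2 - β‖ ^ 2 with hB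
  have hBlim : Filter.Tendsto B Filter.atTop (𝓝 0) := by
    have h1 : Filter.Tendsto (fun j => ‖(x (φ j)) 1 - α‖) Filter.atTop (𝓝 0) :=
      (tendsto_iff_norm_sub_tendsto_zero).mp hα
    have h2 : Filter.Tendsto (fun j => ‖(x (φ j)) 2 - β‖) Filter.atTop (𝓝 0) :=
      (tendsto_iff_norm_sub_tendsto_zero).mp hβ
    have h3 := ((hqlim.sub_const L).const_mul 2).add ((h1.pow 2).const_mul 2)
    have h4 := h3.add ((h2.pow 2).const_mul 2)
    simpa [hB] using h4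
  have hd : 0 < c0 - L := by linarith
  have hcau : ∀ i j, (c0 - L) * ‖x (φ i) - x (φ j)‖ ^ 2 ≤ B i + B j := by
    intro i j
    have hp := qf_parallelogram w (x (φ i)) (x (φ j))
    have hs := lamInf_le w hw (x (φ i) + x (φ j)) (VV_add (hxV _) (hxV _))
    have hpn := parallelogram_law_with_norm ℂ (x (φ i)) (x (φ j))
    rw [hxn, hxn] at hpn
    have hl := hlow (x (φ i) - x (φ j))
    have hq : qf w (x (φ i) - x (φ j)) = ‖Lst w (x (φ i) - x (φ j))‖ ^ 2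
      - ‖(x (φ i)) 1 - (x (φ j)) 1‖ ^ 2 - ‖(x (φ i)) 2 - (x (φ j)) 2‖ ^ 2 := by
      simp only [qf, lp.coeFn_sub, Pi.sub_apply]
    have t1 : ‖(x (φ i)) 1 - (x (φ j)) 1‖ ^ 2 ≤ 2 * ‖(x (φ i)) 1 - α‖ ^ 2
        + 2 * ‖(x (φ j)) 1 - α‖ ^ 2 := by
      have := norm_sub_le ((x (φ i)) 1 - α) ((x (φ j)) 1 - α)
      rw [sub_sub_sub_cancel_right] at this
      nlinarith [sq_nonneg (‖(x (φ i)) 1 - α‖ - ‖(x (φ j)) 1 - α‖),
        norm_nonneg ((x (φ i)) 1 - (x (φ j)) 1)]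
    have t2 : ‖(x (φ i)) 2 - (x (φ j)) 2‖ ^ 2 ≤ 2 * ‖(x (φ i)) 2 - β‖ ^ 2
        + 2 * ‖(x (φ j)) 2 - β‖ ^ 2 := by
      have := norm_sub_le ((x (φ i)) 2 - β) ((x (φ j)) 2 - β)
      rw [sub_sub_sub_cancel_right] at this
      nlinarith [sq_nonneg (‖(x (φ i)) 2 - β‖ - ‖(x (φ j)) 2 - β‖),
        norm_nonneg ((x (φ i)) 2 - (x (φ j)) 2)]
    have hpn' : L * ‖x (φ i) + x (φ j)‖ ^ 2 = 4 * L - L * ‖x (φ i) - x (φ j)‖ ^ 2 := by
      have : ‖x (φ i) + x (φ j)‖ ^ 2 = 4 - ‖x (φ i) - x (φ j)‖ ^ 2 := by nlinarith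
      rw [this]; ring
    simp only [hB]
    nlinarith
  have hC : CauchySeq (fun j => x (φ j)) := by
    rw [Metric.cauchySeq_iff]
    intro ε hε
    have hev : ∀ᶠ j in Filter.atTop, B j < (c0 - L) * ε ^ 2 / 2 :=
      hBlim.eventually (gt_mem_nhds (by positivity))
    obtain ⟨N, hN⟩ := Filter.eventually_atTop.mp hev
    refine ⟨N, fun i hi j hj => ?_⟩
    rw [dist_eq_norm]
    have h1 := hcau i j
    have h2 := hN i hi
    have h3 := hN j hj
    have h4 : (c0 - L) * ‖x (φ i) - x (φ j)‖ ^ 2 < (c0 - L) * ε ^ 2 := by linarith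
    have h5 := lt_of_mul_lt_mul_left h4 hd.le
    exact lt_of_pow_lt_pow_left₀ 2 hε.le h5
  obtain ⟨y, hy⟩ := cauchySeq_tendsto_of_complete hC
  refine ⟨y, ?_, ?_, ?_⟩
  · intro n hn
    have h1 := coord_tendsto hy n
    have h2 : (fun j => (x (φ j)) n) = fun _ => (0:ℂ) := by
      funext j; exact hxV _ n hn
    rw [h2] at h1
    exact (tendsto_nhds_unique h1 tendsto_const_nhds)
  · have h1 := hy.norm
    have h2 : (fun j => ‖x (φ j)‖) = fun _ => (1:ℝ) := by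
      funext j; exact hxn _
    rw [h2] at h1
    exact (tendsto_nhds_unique h1 tendsto_const_nhds)
  · have h1 : Filter.Tendsto (fun j => ‖Lst w (x (φ j))‖ ^ 2) Filter.atTop (𝓝 (‖Lst w y‖ ^ 2)) := by
      apply Filter.Tendsto.pow
      rw [tendsto_iff_norm_sub_tendsto_zero]
      have h2 := (tendsto_iff_norm_sub_tendsto_zero).mp hy
      have h3 : Filter.Tendsto (fun j => 3 * ‖x (φ j) - y‖) Filter.atTop (𝓝 0) := by
        simpa using h2.const_mul 3
      refine squeeze_zero (fun j => norm_nonneg _) (fun j => ?_) h3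
      rw [Real.norm_eq_abs]
      refine (abs_norm_sub_norm_le _ _).trans ?_
      have h4 : Lst w (x (φ j)) - Lst w y = Lst w (x (φ j) - y) := by
        rw [← LstL_apply, ← LstL_apply, ← LstL_apply, map_sub]
      rw [h4]
      exact norm_Lst_le w hw _
    have h2 := (coord_tendsto hy 1).norm.pow 2
    have h3 := (coord_tendsto hy 2).norm.pow 2
    have h4 := (h1.sub h2).sub h3
    exact tendsto_nhds_unique h4 hqlim

end Pool.Agent.R992.HC
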