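import Pool.Agent.R992.HC.Exist

open scoped InnerProductSpace ComplexConjugate ENNReal Topology

namespace Pool.Agent.R992.HC

/-- The polar form minus `lam` times the inner product. -/
noncomputable def polar (w : ℂ) (lam : ℝ) (y x : HH) : ℂ :=
  ⟪Lst w y, Lst w x⟫_ℂ - conj (y 1) * x 1 - conj (y 2) * x 2 - lam * ⟪y, x⟫_ℂ

theorem qf_add_smul (w : ℂ) (lam : ℝ) (x y : HH) (t : ℂ) :
    qf w (x + t • y) - lam * ‖x + t • y‖ ^ 2 =
      (qf w x - lam * ‖x‖ ^ 2) + 2 * (conj t * polar w lam y x).re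
        + ‖t‖ ^ 2 * (qf w y - lam * ‖y‖ ^ 2) := by
  have e1 : Lst w (x + t • y) = Lst w x + t • Lst w y := by
    rw [← LstL_apply, map_add, map_smul, LstL_apply, LstL_apply]
  have gen : ∀ (F : Type) [NormedAddCommGroup F] [InnerProductSpace ℂ F] (a b : F),
      ‖a + t • b‖ ^ 2 = ‖a‖ ^ 2 + 2 * (conj t * ⟪b, a⟫_ℂ).re + ‖t‖ ^ 2 * ‖b‖ ^ 2 := by
    intro F _ _ a b
    have h := norm_add_sq (𝕜 := ℂ) a (t • b)
    rw [norm_smul, mul_pow] at h
    have h2 : conj t * ⟪b, a⟫_ℂ = conj (t * ⟪a, b⟫_ℂ) := by rw [map_mul, inner_conj_symm]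
    rw [h, inner_smul_right, h2, Complex.conj_re]
    rfl
  have e2 := gen HH (Lst w x) (Lst w y)
  have e3 := gen HH x y
  have e4 := gen ℂ (x 1) (y 1)
  have e5 := gen ℂ (x 2) (y 2)
  unfold qf polar
  rw [e1, e2, e3]
  simp only [lp.coeFn_add, lp.coeFn_smul, Pi.add_apply, Pi.smul_apply]
  rw [e4, e5]
  simp only [mul_sub, Complex.sub_re]
  have e6 : (conj t * ((lam:ℂ) * ⟪y, x⟫_ℂ)).re = lam * (conj t * ⟪y, x⟫_ℂ).re := by
    rw [← mul_assoc, mul_comm (conj t) (lam:ℂ), mul_assoc, Complex.re_ofReal_mul]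
  rw [e6]
  have e7 : ⟪y 1, x 1⟫_ℂ = conj (y 1) * x 1 := by simp [mul_comm]
  have e8 : ⟪y 2, x 2⟫_ℂ = conj (y 2) * x 2 := by simp [mul_comm]
  rw [e7, e8]
  ring

theorem polar_zero (w : ℂ) (hw : ‖w‖ = 1) (x : HH) (hx : VV x) (hxn : ‖x‖ = 1)
    (hq : qf w x = lamInf w) (y : HH) (hy : VV y) : polar w (lamInf w) y x = 0 := by
  set P := polar w (lamInf w) y x with hP
  set Q := qf w y - lamInf w * ‖y‖ ^ 2 with hQ
  have hkey : ∀ s : ℝ, 0 < s → 2 * ‖P‖ ^ 2 ≤ s * (‖P‖ ^ 2 * Q) := by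
    intro s hs
    have h1 := qf_add_smul w (lamInf w) x y (-(s : ℂ) * P)
    have h2 := lamInf_le w hw (x + (-(s:ℂ) * P) • y) (VV_add hx (VV_smul _ hy))
    rw [hq, hxn, ← hP, ← hQ] at h1
    have h3 : (conj (-(s : ℂ) * P) * P).re = -s * ‖P‖ ^ 2 := by
      have : conj (-(s : ℂ) * P) * P = ((-s * ‖P‖ ^ 2 : ℝ) : ℂ) := by
        rw [map_mul, map_neg, Complex.conj_ofReal]
        push_cast
        rw [← Complex.conj_mul']
        ring
      rw [this, Complex.ofReal_re]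
    have h4 : ‖-(s : ℂ) * P‖ ^ 2 = s ^ 2 * ‖P‖ ^ 2 := by
      rw [norm_mul, norm_neg, Complex.norm_real, Real.norm_eq_abs, mul_pow, sq_abs]
    rw [h3, h4] at h1
    have h5 : 0 ≤ s * (s * (‖P‖ ^ 2 * Q) - 2 * ‖P‖ ^ 2) := by nlinarith
    have h6 := nonneg_of_mul_nonneg_right h5 hs
    linarith
  by_contra hne
  have hPpos : 0 < ‖P‖ ^ 2 := by
    have : 0 < ‖P‖ := norm_pos_iff.mpr hne
    positivity
  have h7 := hkey (1 / (|Q| + 1)) (by positivity)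
  have h8 : 1 / (|Q| + 1) * (‖P‖ ^ 2 * Q) ≤ ‖P‖ ^ 2 := by
    rw [div_mul_eq_mul_div, one_mul, div_le_iff₀ (by positivity)]
    have : Q ≤ |Q| + 1 := (le_abs_self Q).trans (by linarith)
    nlinarith
  linarith

/-- The data of an edge state in terms of sequences. -/
structure EdgeSeq (w : ℂ) (E : ℝ) (a b : HH) : Prop where
  ha : ∀ n ≤ 0, a n = 0
  hb : ∀ n < 0, b n = 0
  h1 : ∀ n ≥ 1, b n + b (n + 1) + conj w * b (n - 3) = E * a n
  h2 : ∀ n ≥ 0, a n + a (n - 1) + w * a (n + 3) = E * b n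

theorem edgeSeq_of_min (w : ℂ) (hw : ‖w‖ = 1) (x : HH) (hx : VV x) (hxn : ‖x‖ = 1)
    (hq : qf w x = lamInf w) : ∃ b : HH, EdgeSeq w (Real.sqrt (lamInf w)) x b := by
  have hwc : w * conj w = 1 := by
    rw [Complex.mul_conj', hw]; norm_num
  set L := lamInf w with hL
  have hL0 : 0 ≤ L := lamInf_nonneg w hw
  set E := Real.sqrt L with hE
  have hEE : E * E = L := Real.mul_self_sqrt hL0
  have hEEc : (E : ℂ) * E = L := by exact_mod_cast hEE
  -- Euler-Lagrange equation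
  have hEL : ∀ n ≥ 1, (Lop (conj w) (Lst w x)) n = L * x n + (head2 x) n := by
    intro n hn
    have h := polar_zero w hw x hx hxn hq (del n) (VV_del hn)
    unfold polar at h
    rw [Lst_adj, inner_del, inner_del, del_apply, del_apply] at h
    rw [head2_apply]
    by_cases h1 : n = 1
    · subst h1
      simp at h
      rw [if_pos rfl]
      linear_combination h
    · by_cases h2 : n = 2
      · subst h2
        simp at h
        rw [if_neg (by norm_num), if_pos rfl]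
        linear_combination h
      · rw [if_neg (by omega), if_neg (by omega)] at h
        rw [if_neg h1, if_neg h2]
        simp at h
        linear_combination h
  -- the positive part
  set yf : ℤ → ℂ := fun n => if 0 ≤ n then (Lst w x) n else 0 with hyf
  have hysum : Summable (fun n => ‖yf n‖ ^ 2) := by
    refine Summable.of_nonneg_of_le (fun n => by positivity) (fun n => ?_) (summable_sq (Lst w x))
    simp only [hyf]
    split_ifs
    · exact le_rfl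
    · simp
  set bf : ℤ → ℂ := fun n => (E : ℂ)⁻¹ * yf n with hbf
  have hbsum : Summable (fun n => ‖bf n‖ ^ 2) := by
    simp only [hbf, norm_mul, mul_pow]
    exact hysum.mul_left _
  -- `E * b = y`
  have hEb : ∀ n ≥ 0, (E : ℂ) * bf n = (Lst w x) n := by
    intro n hn
    simp only [hbf, hyf, if_pos hn]
    by_cases hE0 : E = 0
    · have h1 := coord_sq_le_qf w hw x hx n hn
      rw [hq, ← hEE, hE0, mul_zero] at h1
      have h2 : (Lst w x) n = 0 := by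
        have : ‖(Lst w x) n‖ = 0 := by nlinarith [norm_nonneg ((Lst w x) n)]
        exact norm_eq_zero.mp this
      rw [h2]; simp
    · rw [← mul_assoc, mul_inv_cancel₀ (by exact_mod_cast hE0), one_mul]
  refine ⟨mk2 bf hbsum, ⟨hx, ?_, ?_, ?_⟩⟩
  · intro n hn
    rw [mk2_apply]
    simp only [hbf, hyf, if_neg (not_le.mpr hn), mul_zero]
  · intro n hn
    simp only [mk2_apply]
    by_cases hE0 : E = 0
    · simp only [hbf, hE0]; simp
    · have hEc : (E : ℂ) ≠ 0 := by exact_mod_cast hE0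
      apply mul_left_cancel₀ hEc
      have h0 := hEL n hn
      rw [Lop_apply] at h0
      have hb0 := hEb n (by omega)
      have hb1 := hEb (n + 1) (by omega)
      rw [head2_apply] at h0
      obtain ⟨ym1, ym2⟩ := Lst_neg_coords w x hx
      by_cases h1 : n = 1
      · subst h1
        rw [if_pos rfl, show (1:ℤ) - 3 = -2 from rfl, ym2] at h0
        have hb3 : bf (1 - 3) = 0 := by simp only [hbf, hyf]; simp
        rw [hb3]
        linear_combination hb0 + hb1 + h0 - x 1 * hwc - x 1 * hEEc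
      · by_cases h2 : n = 2
        · subst h2
          rw [if_neg h1, if_pos rfl, show (2:ℤ) - 3 = -1 from rfl, ym1] at h0
          have hb3 : bf (2 - 3) = 0 := by simp only [hbf, hyf]; simp
          rw [hb3]
          linear_combination hb0 + hb1 + h0 - x 2 * hwc - x 2 * hEEc
        · rw [if_neg h1, if_neg h2] at h0
          have hb3 := hEb (n - 3) (by omega)
          linear_combination hb0 + hb1 + conj w * hb3 + h0 - x n * hEEc
  · intro n hn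
    rw [mk2_apply, hEb n hn, Lst_apply]

/-! ### The point `w = 1` -/

theorem lower_one (x : HH) : 1 / 4 * ‖x‖ ^ 2 ≤ ‖Lst 1 x‖ ^ 2 := by
  have hL := norm_Lst_sq 1 (by simp) x
  have h1 := norm_psi_sq 1 (3/2) (2/5) 0 x
  have key : ((‖Lst 1 x‖ ^ 2 - 1 / 4 * ‖x‖ ^ 2 : ℝ) : ℂ) =
      ((‖sh 4 x + (1/2 : ℂ) • sh 3 x - (3/20 : ℂ) • sh 2 x + (1/2 : ℂ) • sh 1 x + x‖ ^ 2
        + 1/5 * ‖(1/2 : ℂ) • sh 2 x + (3/4 : ℂ) • sh 1 x + (1/2 : ℂ) • x‖ ^ 2
        + 3/200 * ‖x‖ ^ 2 : ℝ) : ℂ) := by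
    have b11 : ⟪sh 1 x, sh 1 x⟫_ℂ = ⟪x, x⟫_ℂ := by simp
    have b22 : ⟪sh 2 x, sh 2 x⟫_ℂ = ⟪x, x⟫_ℂ := by simp
    have b33 : ⟪sh 3 x, sh 3 x⟫_ℂ = ⟪x, x⟫_ℂ := by simp
    have b44 : ⟪sh 4 x, sh 4 x⟫_ℂ = ⟪x, x⟫_ℂ := by simp
    have b12 : ⟪sh 1 x, sh 2 x⟫_ℂ = ⟪x, sh 1 x⟫_ℂ := by rw [inner_sh_sh]; norm_num
    have b13 : ⟪sh 1 x, sh 3 x⟫_ℂ = ⟪x, sh 2 x⟫_ℂ := by rw [inner_sh_sh]; norm_num
    have b14 : ⟪sh 1 x, sh 4 x⟫_ℂ = ⟪x, sh 3 x⟫_ℂ := by rw [inner_sh_sh]; norm_num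
    have b23 : ⟪sh 2 x, sh 3 x⟫_ℂ = ⟪x, sh 1 x⟫_ℂ := by rw [inner_sh_sh]; norm_num
    have b24 : ⟪sh 2 x, sh 4 x⟫_ℂ = ⟪x, sh 2 x⟫_ℂ := by rw [inner_sh_sh]; norm_num
    have b34 : ⟪sh 3 x, sh 4 x⟫_ℂ = ⟪x, sh 1 x⟫_ℂ := by rw [inner_sh_sh]; norm_num
    have b21 : ⟪sh 2 x, sh 1 x⟫_ℂ = conj ⟪x, sh 1 x⟫_ℂ := by rw [← b12, inner_conj_symm]
    have b31 : ⟪sh 3 x, sh 1 x⟫_ℂ = conj ⟪x, sh 2 x⟫_ℂ := by rw [← b13, inner_conj_symm]
    have b41 : ⟪sh 4 x, sh 1 x⟫_ℂ = conj ⟪x, sh 3 x⟫_ℂ := by rw [← b14, inner_conj_symm]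
    have b32 : ⟪sh 3 x, sh 2 x⟫_ℂ = conj ⟪x, sh 1 x⟫_ℂ := by rw [← b23, inner_conj_symm]
    have b42 : ⟪sh 4 x, sh 2 x⟫_ℂ = conj ⟪x, sh 2 x⟫_ℂ := by rw [← b24, inner_conj_symm]
    have b43 : ⟪sh 4 x, sh 3 x⟫_ℂ = conj ⟪x, sh 1 x⟫_ℂ := by rw [← b34, inner_conj_symm]
    have b10 : ⟪sh 1 x, x⟫_ℂ = conj ⟪x, sh 1 x⟫_ℂ := (inner_conj_symm _ _).symm
    have b20 : ⟪sh 2 x, x⟫_ℂ = conj ⟪x, sh 2 x⟫_ℂ := (inner_conj_symm _ _).symm
    have b30 : ⟪sh 3 x, x⟫_ℂ = conj ⟪x, sh 3 x⟫_ℂ := (inner_conj_symm _ _).symm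
    have b40 : ⟪sh 4 x, x⟫_ℂ = conj ⟪x, sh 4 x⟫_ℂ := (inner_conj_symm _ _).symm
    rw [Complex.ofReal_sub, hL, Complex.ofReal_add, Complex.ofReal_add, Complex.ofReal_mul,
      Complex.ofReal_mul, Complex.ofReal_mul, normsq_complex, normsq_complex, normsq_complex]
    have c2 : conj (1/2 : ℂ) = 1/2 := by
      rw [map_div₀, map_one, Complex.conj_ofNat]
    have c3 : conj (3/20 : ℂ) = 3/20 := by
      rw [map_div₀, Complex.conj_ofNat, Complex.conj_ofNat]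
    have c4 : conj (3/4 : ℂ) = 3/4 := by
      rw [map_div₀, Complex.conj_ofNat, Complex.conj_ofNat]
    simp only [inner_add_left, inner_add_right, inner_sub_left, inner_sub_right, inner_smul_left,
      inner_smul_right, b11, b22, b33, b44, b12, b13, b14, b23, b24, b34, b21, b31, b41, b32, b42,
      b43, b10, b20, b30, b40, c2, c3, c4, map_one]
    push_cast
    ring
  have key' : ‖Lst 1 x‖ ^ 2 - 1 / 4 * ‖x‖ ^ 2 =
      ‖sh 4 x + (1/2 : ℂ) • sh 3 x - (3/20 : ℂ) • sh 2 x + (1/2 : ℂ) • sh 1 x + x‖ ^ 2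
        + 1/5 * ‖(1/2 : ℂ) • sh 2 x + (3/4 : ℂ) • sh 1 x + (1/2 : ℂ) • x‖ ^ 2
        + 3/200 * ‖x‖ ^ 2 := by exact_mod_cast key
  have : 0 ≤ ‖sh 4 x + (1/2 : ℂ) • sh 3 x - (3/20 : ℂ) • sh 2 x + (1/2 : ℂ) • sh 1 x + x‖ ^ 2
        + 1/5 * ‖(1/2 : ℂ) • sh 2 x + (3/4 : ℂ) • sh 1 x + (1/2 : ℂ) • x‖ ^ 2
        + 3/200 * ‖x‖ ^ 2 := by positivity
  linarith

/-- trial function -/
noncomputable def tf : ℤ → ℂ := fun n =>
  if n = 1 then 5 else if n = 2 then -6 else if n = 3 then 3 else if n = 4 then -4 else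
  if n = 5 then 1 else if n = 6 then 2 else if n = 7 then -1 else if n = 8 then 2 else
  if n = 9 then -2 else 0

theorem tf_zero {n : ℤ} (h : n ∉ ({1, 2, 3, 4, 5, 6, 7, 8, 9} : Finset ℤ)) : tf n = 0 := by
  simp only [Finset.mem_insert, Finset.mem_singleton, not_or] at h
  obtain ⟨h1, h2, h3, h4, h5, h6, h7, h8, h9⟩ := h
  simp [tf, h1, h2, h3, h4, h5, h6, h7, h8, h9]

noncomputable def tv : HH := mk2 tf (summable_of_support {1, 2, 3, 4, 5, 6, 7, 8, 9}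
  (fun _ hn => tf_zero hn))

theorem VV_tv : VV tv := by
  intro n hn
  apply tf_zero
  simp only [Finset.mem_insert, Finset.mem_singleton, not_or]
  omega

theorem norm_tv : ‖tv‖ ^ 2 = 100 := by
  rw [norm_sq_of_support tv {1, 2, 3, 4, 5, 6, 7, 8, 9} (fun n hn => tf_zero hn)]
  simp only [tv, mk2_apply]
  simp [Finset.sum_insert, tf]
  norm_num

theorem qf_tv : qf 1 tv = 23 := by
  have h : ‖Lst 1 tv‖ ^ 2 = 84 := by
    rw [norm_sq_of_support (Lst 1 tv) {-2, -1, 0, 1, 2, 3, 4, 5, 6, 7, 8, 9, 10}]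
    · simp only [Lst_apply, tv, mk2_apply]
      simp [Finset.sum_insert, tf]
      norm_num
    · intro n hn
      simp only [Finset.mem_insert, Finset.mem_singleton, not_or] at hn
      rw [Lst_apply]
      simp only [tv, mk2_apply]
      rw [tf_zero, tf_zero, tf_zero]
      · simp
      all_goals
        simp only [Finset.mem_insert, Finset.mem_singleton, not_or]
        omega
  unfold qf
  rw [h]
  simp [tv, tf]
  norm_num

theorem lamInf_one : lamInf 1 ≤ 23 / 100 := by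
  have h := lamInf_le 1 (by simp) tv VV_tv
  rw [qf_tv, norm_tv] at h
  linarith

/-- Existence of an edge state for every quasimomentum close to `0`. -/
theorem exists_near (w : ℂ) (hw : ‖w‖ = 1) (hw1 : ‖w - 1‖ ≤ 1 / 400) :
    ∃ a b : HH, EdgeSeq w (Real.sqrt (lamInf w)) a b ∧ a ≠ 0 := by
  have h1 : lamInf w ≤ 245 / 1000 := by
    have := lamInf_param w 1 hw (by simp)
    linarith [lamInf_one]
  have hlow : ∀ x : HH, (199 / 400 : ℝ) ^ 2 * ‖x‖ ^ 2 ≤ ‖Lst w x‖ ^ 2 := by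
    intro x
    have h2 := norm_Lst_param 1 w x
    have h3 := lower_one x
    have h4 : 1 / 2 * ‖x‖ ≤ ‖Lst 1 x‖ := by
      have : (1 / 2 * ‖x‖) ^ 2 ≤ ‖Lst 1 x‖ ^ 2 := by nlinarith
      exact (sq_le_sq₀ (by positivity) (norm_nonneg _)).mp this
    rw [norm_sub_rev] at h2
    have h5 : 199 / 400 * ‖x‖ ≤ ‖Lst w x‖ := by
      have : ‖w - 1‖ * ‖x‖ ≤ 1 / 400 * ‖x‖ := mul_le_mul_of_nonneg_right hw1 (norm_nonneg _)
      linarith
    rw [← mul_pow]
    exact pow_le_pow_left₀ (by positivity) h5 2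
  obtain ⟨x, hx, hxn, hq⟩ := exists_min w hw _ hlow (by linarith [show (245/1000:ℝ) < (199/400)^2 by norm_num])
  obtain ⟨b, hb⟩ := edgeSeq_of_min w hw x hx hxn hq
  refine ⟨x, b, hb, ?_⟩
  intro h0
  rw [h0, norm_zero] at hxn
  norm_num at hxn

end Pool.Agent.R992.HC
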