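import Pool.Agent.R992.HC.NoState

open scoped InnerProductSpace ComplexConjugate ENNReal

namespace Pool.Agent.R992.HC

theorem norm_one_of {z : ℂ} (hz : z * conj z = 1) : ‖z‖ = 1 := by
  have : (‖z‖ ^ 2 : ℝ) = 1 := by
    have h := Complex.mul_conj' z
    rw [hz] at h
    exact_mod_cast h.symm
  nlinarith [norm_nonneg z]

/-- The bound on `beta`. -/
theorem beta_bounds (z : ℂ) (hz : z * conj z = 1)
    (h1 : |z.re + 0.61545| ≤ 2e-5) (h2 : |z.im + 0.78817| ≤ 2e-5) :
    0.3392 ≤ ‖q1 - q0 * conj z‖ ^ 2 ∧ ‖q1 - q0 * conj z‖ ^ 2 ≤ 0.3395 ∧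
      ‖q0 * (q1 - q0 * conj z) - 1‖ ^ 2 ≤ 0.0915 := by
  have hzz : z.re ^ 2 + z.im ^ 2 = 1 := by
    have h := congrArg Complex.re hz
    simp only [Complex.mul_re, Complex.conj_re, Complex.conj_im, Complex.one_re] at h
    nlinarith
  obtain ⟨a1, a2⟩ := abs_le.mp h1
  obtain ⟨b1, b2⟩ := abs_le.mp h2
  have e1 : ‖q1 - q0 * conj z‖ ^ 2 = (-0.259 - 1.341 * z.re) ^ 2 + (0.9206 + 1.341 * z.im) ^ 2 := by
    rw [Complex.sq_norm, Complex.normSq_apply]
    simp only [q0, q1, Complex.sub_re, Complex.sub_im, Complex.mul_re, Complex.mul_im,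
      Complex.conj_re, Complex.conj_im]
    ring
  have e2 : ‖q0 * (q1 - q0 * conj z) - 1‖ ^ 2 =
      (1.341 * (-0.259 - 1.341 * z.re) - 1) ^ 2 + (1.341 * (0.9206 + 1.341 * z.im)) ^ 2 := by
    rw [Complex.sq_norm, Complex.normSq_apply]
    simp only [q0, q1, Complex.sub_re, Complex.sub_im, Complex.mul_re, Complex.mul_im,
      Complex.conj_re, Complex.conj_im, Complex.one_re, Complex.one_im]
    ring
  have e1' : ‖q1 - q0 * conj z‖ ^ 2 = 0.259 ^ 2 + 0.9206 ^ 2 + 1.341 ^ 2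
      + 2 * 0.259 * 1.341 * z.re + 2 * 0.9206 * 1.341 * z.im := by
    rw [e1]; linear_combination 1.341 ^ 2 * hzz
  have e2' : ‖q0 * (q1 - q0 * conj z) - 1‖ ^ 2 = (1.341 * 0.259 + 1) ^ 2 + (1.341 * 0.9206) ^ 2
      + 1.341 ^ 4 + 2 * (1.341 * 0.259 + 1) * 1.341 ^ 2 * z.re
      + 2 * 1.341 * 0.9206 * 1.341 ^ 2 * z.im := by
    rw [e2]; linear_combination 1.341 ^ 4 * hzz
  rw [e2']
  refine ⟨?_, ?_, ?_⟩
  · rw [e1']; nlinarith
  · rw [e1']; nlinarith
  · nlinarith

theorem norm_q0 : ‖q0‖ = 1.341 := by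
  have : q0 = ((1.341 : ℝ) : ℂ) := by
    apply Complex.ext <;> simp [q0]
  rw [this, Complex.norm_real]
  norm_num

/-- Coercivity near the edge for `lam ≤ c`. -/
theorem below_threshold (z : ℂ) (hz : z * conj z = 1) (hp : conj (p0 z) = p0 z)
    (h1 : |z.re + 0.61545| ≤ 2e-5) (h2 : |z.im + 0.78817| ≤ 2e-5) (x : HH) (s : ℤ)
    (hx : ∀ n < s, x n = 0) :
    1.341 ^ 2 * ‖x s‖ ^ 2 + ‖q0 * x (s + 1) + (q1 - q0 * conj z) * x s‖ ^ 2 ≤
      ‖Lst Complex.I x‖ ^ 2 - (cval z).re * ‖x‖ ^ 2 := by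
  have hzn := norm_one_of hz
  have hm := main_ineq z hz hp h1 h2 x
  set W := sh 1 x - z • x with hW
  set y := q0 • W + q1 • sh 1 W + q2 • sh 2 W + q3 • sh 3 W with hy
  have hWn : ∀ n, W n = x (n - 1) - z * x n := by
    intro n; simp only [hW, lp.coeFn_sub, lp.coeFn_smul, Pi.sub_apply, Pi.smul_apply, smul_eq_mul,
      sh_apply]
  have hyn : ∀ n, y n = q0 * W n + q1 * W (n - 1) + q2 * W (n - 2) + q3 * W (n - 3) := by
    intro n
    simp only [hy, lp.coeFn_add, lp.coeFn_smul, Pi.add_apply, Pi.smul_apply, smul_eq_mul,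
      sh_apply]
  have hW0 : ∀ n < s, W n = 0 := by
    intro n hn
    rw [hWn, hx n hn, hx (n - 1) (by omega)]; ring
  have hWs : W s = -z * x s := by
    rw [hWn, hx (s - 1) (by omega)]; ring
  have hWs1 : W (s + 1) = x s - z * x (s + 1) := by
    rw [hWn, add_sub_cancel_right]
  have hys : y s = -(z * (q0 * x s)) := by
    rw [hyn, hWs, hW0 (s - 1) (by omega), hW0 (s - 2) (by omega), hW0 (s - 3) (by omega)]; ring
  have hys1 : y (s + 1) = -(z * (q0 * x (s + 1) + (q1 - q0 * conj z) * x s)) := by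
    rw [hyn, hWs1, add_sub_cancel_right, hWs, hW0 (s + 1 - 2) (by omega),
      hW0 (s + 1 - 3) (by omega)]
    linear_combination (-q0 * x s) * hz
  have h2c := two_coord_le y (i := s) (j := s + 1) (by omega)
  rw [hys, hys1, norm_neg, norm_neg, norm_mul, norm_mul z, hzn, one_mul, one_mul, norm_mul,
    norm_q0, mul_pow] at h2c
  linarith

theorem exists_z1 (z : ℂ) (hz : z * conj z = 1) (w : ℂ) (lam : ℝ)
    (h : ‖w + z ^ 3 + z ^ 4‖ ^ 2 < lam) :
    ∃ z1 : ℂ, z1 * conj z1 = 1 ∧ z1 ≠ z ∧ ‖w + z1 ^ 3 + z1 ^ 4‖ ^ 2 < lam := by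
  set F : ℝ → ℝ := fun s => ‖w + (z * Complex.exp (s * Complex.I)) ^ 3
    + (z * Complex.exp (s * Complex.I)) ^ 4‖ ^ 2 with hF
  have hcont : Continuous F := by rw [hF]; fun_prop
  have hF0 : F 0 < lam := by simpa [hF] using h
  have hopen : IsOpen {s : ℝ | F s < lam} := isOpen_lt hcont continuous_const
  obtain ⟨δ, hδ, hball⟩ := Metric.isOpen_iff.mp hopen 0 hF0
  set s : ℝ := min (δ / 2) 1 with hs
  have hs0 : 0 < s := by positivity
  have hs1 : s ≤ 1 := min_le_right _ _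
  have hsd : s < δ := lt_of_le_of_lt (min_le_left _ _) (by linarith)
  have hmem : F s < lam := by
    apply hball
    rw [Metric.mem_ball, Real.dist_eq, sub_zero, abs_of_pos hs0]
    exact hsd
  refine ⟨z * Complex.exp (s * Complex.I), ?_, ?_, hmem⟩
  · have he : Complex.exp (s * Complex.I) * conj (Complex.exp (s * Complex.I)) = 1 := by
      rw [Complex.mul_conj', Complex.norm_exp_ofReal_mul_I]
      norm_num
    rw [map_mul]
    linear_combination (Complex.exp (s * Complex.I) * conj (Complex.exp (s * Complex.I))) * hz + he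
  · intro heq
    have hz0 : z ≠ 0 := by
      intro h0; rw [h0] at hz; simp at hz
    have he : Complex.exp (s * Complex.I) = 1 := by
      have := mul_left_cancel₀ hz0 (heq.trans (mul_one z).symm)
      exact this
    have him := congrArg Complex.im he
    rw [Complex.exp_ofReal_mul_I_im, Complex.one_im] at him
    have hpi : s < Real.pi := by linarith [Real.pi_gt_three]
    have := Real.sin_pos_of_pos_of_lt_pi hs0 hpi
    linarith

theorem no_state (E : ℝ) (a b : HH)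
    (ha : ∀ n ≤ 0, a n = 0) (hb : ∀ n < 0, b n = 0)
    (h1 : ∀ n ≥ 1, b n + b (n + 1) + conj Complex.I * b (n - 3) = E * a n)
    (h2 : ∀ n ≥ 0, a n + a (n - 1) + Complex.I * a (n + 3) = E * b n) :
    (∀ n, a n = 0) ∧ (∀ n, b n = 0) := by
  obtain ⟨z, hz, hp, hre, him⟩ := exists_z0
  obtain ⟨B1, B2, B3⟩ := beta_bounds z hz hre him
  have hI : Complex.I * conj Complex.I = 1 := by simp
  have heq := eq_of_edge Complex.I hI E a b ha hb h1 h2
  have hc := cval_eq z hz
  set c := (cval z).re with hcdef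
  have hc0 : 0 ≤ c := by rw [hc]; positivity
  set β := q1 - q0 * conj z with hβ
  -- a vanishes
  have hq : ‖Lst Complex.I a‖ ^ 2 - (E ^ 2) * ‖a‖ ^ 2 = ‖a 1‖ ^ 2 + ‖a 2‖ ^ 2 := by
    have := key_sum Complex.I a (E ^ 2) ha heq 1 1
    simp only [Finset.range_one, Finset.sum_singleton, pow_zero, one_smul, Nat.cast_zero,
      sh_zero] at this
    rw [this, norm_head2]
  have ha12 : a 1 = 0 ∧ a 2 = 0 := by
    rcases le_or_gt (E ^ 2) c with hle | hgt
    · have hb1 := below_threshold z hz hp hre him a 1 (fun n hn => ha n (by omega))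
      rw [show (1:ℤ) + 1 = 2 from rfl, ← hcdef, ← hβ] at hb1
      have hle2 : E ^ 2 * ‖a‖ ^ 2 ≤ c * ‖a‖ ^ 2 := mul_le_mul_of_nonneg_right hle (by positivity)
      have hrev : (1.341 * ‖a 2‖ - ‖β‖ * ‖a 1‖) ^ 2 ≤ ‖q0 * a 2 + β * a 1‖ ^ 2 := by
        have h3 := abs_norm_sub_norm_le (q0 * a 2) (-(β * a 1))
        rw [norm_neg, sub_neg_eq_add, norm_mul, norm_mul, norm_q0] at h3
        rw [← sq_abs]
        exact pow_le_pow_left₀ (abs_nonneg _) h3 2
      have hquad : ((1.341 ^ 2 - 1) + ‖β‖ ^ 2) * ‖a 1‖ ^ 2 + (1.341 ^ 2 - 1) * ‖a 2‖ ^ 2 ≤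
          2 * (1.341 * ‖β‖) * ‖a 1‖ * ‖a 2‖ := by nlinarith
      have := quad_zero (by norm_num) (by nlinarith) hquad
      exact ⟨norm_eq_zero.mp this.1, norm_eq_zero.mp this.2⟩
    · rw [hc] at hgt
      obtain ⟨z1, hz1, hne, hlt⟩ := exists_z1 z hz Complex.I (E ^ 2) hgt
      have k1 := embedded Complex.I z (by simp) hz a (E ^ 2) ha heq hgt
      have k2 := embedded Complex.I z1 (by simp) hz1 a (E ^ 2) ha heq hlt
      have k3 : (conj z1 - conj z) * a 1 = 0 := by linear_combination k2 - k1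
      have k4 : conj z1 - conj z ≠ 0 := by
        rw [sub_ne_zero]
        intro h; exact hne ((starRingEnd ℂ).injective h)
      have k5 : a 1 = 0 := (mul_eq_zero.mp k3).resolve_left k4
      rw [k5, mul_zero, zero_add] at k1
      exact ⟨k5, k1⟩
  have hazero := unique_cont Complex.I Complex.I_ne_zero a (E ^ 2) ha heq ha12.1 ha12.2
  refine ⟨hazero, ?_⟩
  by_cases hE : E = 0
  · -- zero energy: the `b` sequence
    have h1' : ∀ n ≥ 1, b n + b (n + 1) + conj Complex.I * b (n - 3) = 0 := by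
      intro n hn
      rw [h1 n hn, hE]; simp
    have hL : ‖Lst Complex.I b‖ ^ 2 = ‖b 0 + b 1‖ ^ 2 + ‖b 0‖ ^ 2 := by
      rw [← norm_Lop_eq, norm_sq_of_support _ {0, -1}]
      · rw [Finset.sum_pair (by norm_num), Lop_apply, Lop_apply, hb (0 - 3) (by norm_num),
          hb (-1) (by norm_num), hb (-1 - 3) (by norm_num), show (0:ℤ) + 1 = 1 from rfl,
          show (-1:ℤ) + 1 = 0 from rfl]
        simp
      · intro n hn
        simp only [Finset.mem_insert, Finset.mem_singleton, not_or] at hn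
        rw [Lop_apply]
        rcases lt_or_ge n 1 with h | h
        · rw [hb n (by omega), hb (n + 1) (by omega), hb (n - 3) (by omega)]; simp
        · exact h1' n h
    have hb1 := below_threshold z hz hp hre him b 0 hb
    rw [show (0:ℤ) + 1 = 1 from rfl, ← hcdef, ← hβ, hL] at hb1
    have hcb : 0 ≤ c * ‖b‖ ^ 2 := by positivity
    have hkey : ‖q0 * b 1 + β * b 0‖ ^ 2 - ‖b 0 + b 1‖ ^ 2 =
        (1.341 ^ 2 - 1) * ‖b 1‖ ^ 2 + (‖β‖ ^ 2 - 1) * ‖b 0‖ ^ 2
          + 2 * ((q0 * β - 1) * b 0 * conj (b 1)).re := by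
      have hq0c : conj q0 = q0 := by
        apply Complex.ext <;> simp [q0]
      have hq0s : q0 * q0 = ((1.341 ^ 2 : ℝ) : ℂ) := by
        apply Complex.ext <;> simp [q0] <;> norm_num
      have hC : ((‖q0 * b 1 + β * b 0‖ ^ 2 - ‖b 0 + b 1‖ ^ 2 : ℝ) : ℂ) =
          (((1.341 ^ 2 - 1) * ‖b 1‖ ^ 2 + (‖β‖ ^ 2 - 1) * ‖b 0‖ ^ 2
          + 2 * ((q0 * β - 1) * b 0 * conj (b 1)).re : ℝ) : ℂ) := by
        have hre2 : ∀ u : ℂ, ((2 * u.re : ℝ) : ℂ) = u + conj u := by
          intro u; rw [Complex.add_conj]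
        rw [Complex.ofReal_add _ (2 * _), hre2]
        rw [Complex.ofReal_sub, Complex.ofReal_add, Complex.ofReal_mul, Complex.ofReal_mul,
          Complex.ofReal_sub, Complex.ofReal_sub, ← hq0s]
        simp only [Complex.ofReal_pow, ← Complex.mul_conj', map_add, map_mul, map_sub, hq0c,
          Complex.conj_conj, Complex.ofReal_one, map_one]
        ring
      exact_mod_cast hC
    have hcross : -(2 * ‖q0 * β - 1‖ * ‖b 0‖ * ‖b 1‖) ≤
        2 * ((q0 * β - 1) * b 0 * conj (b 1)).re := by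
      have h3 := (abs_le.mp (Complex.abs_re_le_norm ((q0 * β - 1) * b 0 * conj (b 1)))).1
      rw [norm_mul, norm_mul, Complex.norm_conj] at h3
      linarith
    have hquad : ((1.341 ^ 2 - 1) + (‖β‖ ^ 2 - 1)) * ‖b 0‖ ^ 2 + (1.341 ^ 2 - 1) * ‖b 1‖ ^ 2 ≤
        2 * ‖q0 * β - 1‖ * ‖b 0‖ * ‖b 1‖ := by nlinarith
    have hz2 := quad_zero (by norm_num) (by nlinarith) hquad
    have b0 : b 0 = 0 := norm_eq_zero.mp hz2.1
    have b1 : b 1 = 0 := norm_eq_zero.mp hz2.2
    have hall : ∀ N : ℕ, ∀ n : ℤ, n ≤ 1 + N → b n = 0 := by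
      intro N
      induction N with
      | zero =>
        intro n hn
        have : n < 0 ∨ n = 0 ∨ n = 1 := by omega
        rcases this with h | rfl | rfl
        · exact hb n h
        · exact b0
        · exact b1
      | succ N ih =>
        intro n hn
        rcases lt_or_ge n (1 + ((N + 1 : ℕ) : ℤ)) with h | h
        · exact ih n (by push_cast at h; omega)
        · have hn' : n = (N + 1 : ℤ) + 1 := by push_cast at hn h; omega
          have h7 := h1' (N + 1 : ℤ) (by omega)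
          rw [ih (N + 1 : ℤ) (by omega), ih ((N + 1 : ℤ) - 3) (by omega)] at h7
          rw [hn']
          simpa using h7
    intro n
    exact hall n.toNat n (by omega)
  · intro n
    rcases lt_or_ge n 0 with h | h
    · exact hb n h
    · have := h2 n h
      rw [hazero, hazero, hazero] at this
      have h3 : (E : ℂ) * b n = 0 := by rw [← this]; ring
      exact (mul_eq_zero.mp h3).resolve_left (by exact_mod_cast hE)

end Pool.Agent.R992.HC
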