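import Pool.Agent.R992.HC.Defs
import Pool.Agent.R992.HC.Exist2
import Pool.Agent.R992.HC.NoState2

open scoped InnerProductSpace ComplexConjugate

namespace Pool.Agent.R992.HC

/-- A-site with coordinates `(p, q)`. -/
noncomputable def SA (p q : ℤ) : ℂ := p * vA + q * vB
/-- B-site with coordinates `(p, q)`. -/
noncomputable def SB (p q : ℤ) : ℂ := ⟨1 / √3, 0⟩ + (p * vA + q * vB)

theorem SA_re (p q : ℤ) : (SA p q).re = (p + q) * (√3 / 2) := by simp [SA, vA, vB]; ring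
theorem SA_im (p q : ℤ) : (SA p q).im = (p - q) / 2 := by simp [SA, vA, vB]; ring
theorem SB_re (p q : ℤ) : (SB p q).re = (p + q + 2 / 3) * (√3 / 2) := by
  have h3 : √3 * √3 = 3 := Real.mul_self_sqrt (by norm_num)
  have h0 : √3 ≠ 0 := by positivity
  have : (SB p q).re = 1 / √3 + (p + q) * (√3 / 2) := by simp [SB, vA, vB]; ring
  rw [this]
  field_simp
  linear_combination (-2) * h3
theorem SB_im (p q : ℤ) : (SB p q).im = (p - q) / 2 := by simp [SB, vA, vB]; ring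

theorem inner_re_im (u x : ℂ) : ⟪u, x⟫_ℝ = u.re * x.re + u.im * x.im := by
  rw [Complex.inner]; simp; ring

theorem sqrt3sq : √3 * √3 = 3 := Real.mul_self_sqrt (by norm_num)

theorem SA_inj {p q p' q' : ℤ} (h : SA p q = SA p' q') : p = p' ∧ q = q' := by
  have h1 := congrArg Complex.re h
  have h2 := congrArg Complex.im h
  rw [SA_re, SA_re] at h1
  rw [SA_im, SA_im] at h2
  have h0 : (√3 / 2) ≠ 0 := by positivity
  have h3 := mul_right_cancel₀ h0 h1
  have h4 : ((p + q : ℤ) : ℝ) = ((p' + q' : ℤ) : ℝ) := by push_cast; exact h3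
  have h5 : ((p - q : ℤ) : ℝ) = ((p' - q' : ℤ) : ℝ) := by push_cast; linarith
  have h6 : p + q = p' + q' := by exact_mod_cast h4
  have h7 : p - q = p' - q' := by exact_mod_cast h5
  omega

theorem SB_inj {p q p' q' : ℤ} (h : SB p q = SB p' q') : p = p' ∧ q = q' := by
  apply SA_inj
  unfold SB at h
  unfold SA
  exact add_left_cancel h

theorem SA_ne_SB (p q p' q' : ℤ) : SA p q ≠ SB p' q' := by
  intro h
  have h1 := congrArg Complex.re h
  rw [SA_re, SB_re] at h1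
  have h0 : (√3 / 2) ≠ 0 := by positivity
  have h3 := mul_right_cancel₀ h0 h1
  have h4 : ((3 * (p + q) : ℤ) : ℝ) = ((3 * (p' + q') + 2 : ℤ) : ℝ) := by push_cast; linarith
  have h5 : 3 * (p + q) = 3 * (p' + q') + 2 := by exact_mod_cast h4
  omega

theorem dist_iff (x y : ℂ) : dist y x = 1 / √3 ↔ (y.re - x.re) ^ 2 + (y.im - x.im) ^ 2 = 1 / 3 := by
  have h0 : (0:ℝ) ≤ 1 / √3 := by positivity
  have h1 : dist y x ^ 2 = (y.re - x.re) ^ 2 + (y.im - x.im) ^ 2 := by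
    rw [dist_eq_norm, Complex.sq_norm, Complex.normSq_apply]
    simp
    ring
  have h2 : (1 / √3) ^ 2 = (1 / 3 : ℝ) := by
    rw [div_pow, Real.sq_sqrt (by norm_num)]; norm_num
  rw [← h1, ← h2]
  exact (sq_eq_sq₀ dist_nonneg h0).symm

theorem dist_AA (p q p' q' : ℤ) : dist (SA p' q') (SA p q) ≠ 1 / √3 := by
  rw [Ne, dist_iff, SA_re, SA_re, SA_im, SA_im]
  intro h
  have h1 : ((3 * ((p' - p) ^ 2 + (q' - q) ^ 2 + (p' - p) * (q' - q)) : ℤ) : ℝ) = ((1 : ℤ) : ℝ) := by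
    push_cast
    linear_combination 3 * h - 3 / 4 * ((p' + q' : ℝ) - (p + q)) ^ 2 * sqrt3sq
  have h2 : 3 * ((p' - p) ^ 2 + (q' - q) ^ 2 + (p' - p) * (q' - q)) = 1 := by exact_mod_cast h1
  omega

theorem dist_BB (p q p' q' : ℤ) : dist (SB p' q') (SB p q) ≠ 1 / √3 := by
  rw [Ne, dist_iff, SB_re, SB_re, SB_im, SB_im]
  intro h
  have h1 : ((3 * ((p' - p) ^ 2 + (q' - q) ^ 2 + (p' - p) * (q' - q)) : ℤ) : ℝ) = ((1 : ℤ) : ℝ) := by
    push_cast
    linear_combination 3 * h - 3 / 4 * ((p' + q' : ℝ) - (p + q)) ^ 2 * sqrt3sq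
  have h2 : 3 * ((p' - p) ^ 2 + (q' - q) ^ 2 + (p' - p) * (q' - q)) = 1 := by exact_mod_cast h1
  omega

theorem int_aux (m n : ℤ) (h : m ^ 2 + n ^ 2 + m * n + m + n = 0) :
    (m = 0 ∧ n = 0) ∨ (m = -1 ∧ n = 0) ∨ (m = 0 ∧ n = -1) := by
  have h1 : (m + n + 1) ^ 2 + m ^ 2 + n ^ 2 = 1 := by linear_combination 2 * h
  have hm : -1 ≤ m ∧ m ≤ 1 := by constructor <;> nlinarith [sq_nonneg (m + n + 1), sq_nonneg n]
  have hn : -1 ≤ n ∧ n ≤ 1 := by constructor <;> nlinarith [sq_nonneg (m + n + 1), sq_nonneg m]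
  obtain ⟨m1, m2⟩ := hm
  obtain ⟨n1, n2⟩ := hn
  interval_cases m <;> interval_cases n <;> simp_all

theorem dist_AB (p q p' q' : ℤ) : dist (SB p' q') (SA p q) = 1 / √3 ↔
    (p' = p ∧ q' = q) ∨ (p' = p - 1 ∧ q' = q) ∨ (p' = p ∧ q' = q - 1) := by
  rw [dist_iff, SB_re, SA_re, SB_im, SA_im]
  have key : ((p' + q' + 2 / 3 : ℝ) * (√3 / 2) - (p + q) * (√3 / 2)) ^ 2
      + ((p' - q') / 2 - (p - q) / 2) ^ 2 =
      (((p' - p) ^ 2 + (q' - q) ^ 2 + (p' - p) * (q' - q) + (p' - p) + (q' - q) : ℤ) : ℝ) + 1 / 3 := by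
    push_cast
    linear_combination ((p' + q' + 2 / 3 : ℝ) - (p + q)) ^ 2 / 4 * sqrt3sq
  rw [key]
  constructor
  · intro h
    have h1 : (((p' - p) ^ 2 + (q' - q) ^ 2 + (p' - p) * (q' - q) + (p' - p) + (q' - q) : ℤ) : ℝ)
        = ((0:ℤ) : ℝ) := by push_cast at h ⊢; linarith
    have h2 : (p' - p) ^ 2 + (q' - q) ^ 2 + (p' - p) * (q' - q) + (p' - p) + (q' - q) = 0 := by
      exact_mod_cast h1
    rcases int_aux _ _ h2 with h | h | h <;> omega
  · rintro (⟨rfl, rfl⟩ | ⟨rfl, rfl⟩ | ⟨rfl, rfl⟩) <;> (push_cast; ring)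

theorem mem_honeycomb {x : ℂ} (h : x ∈ honeycomb) : (∃ p q, x = SA p q) ∨ (∃ p q, x = SB p q) := h

theorem edgeHam_A (S : Set ℂ) (hS : S ⊆ honeycomb) (ψ : ℂ → ℂ) (hψ : ∀ x, x ∉ S → ψ x = 0)
    (p q : ℤ) : edgeHam S ψ (SA p q) = ψ (SB p q) + ψ (SB (p - 1) q) + ψ (SB p (q - 1)) := by
  have hset : {y | y ∈ S ∧ dist y (SA p q) = 1 / √3} ∩ Function.support ψ =
      (({SB p q, SB (p - 1) q, SB p (q - 1)} : Finset ℂ) : Set ℂ) ∩ Function.support ψ := by
    ext y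
    simp only [Set.mem_inter_iff, Set.mem_setOf_eq, Function.mem_support, Finset.coe_insert,
      Finset.coe_singleton, Set.mem_insert_iff, Set.mem_singleton_iff]
    constructor
    · rintro ⟨⟨hyS, hyd⟩, hy0⟩
      refine ⟨?_, hy0⟩
      rcases mem_honeycomb (hS hyS) with ⟨p', q', rfl⟩ | ⟨p', q', rfl⟩
      · exact absurd hyd (dist_AA _ _ _ _)
      · rw [dist_AB] at hyd
        rcases hyd with ⟨rfl, rfl⟩ | ⟨rfl, rfl⟩ | ⟨rfl, rfl⟩ <;> simp
    · rintro ⟨hy, hy0⟩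
      refine ⟨⟨?_, ?_⟩, hy0⟩
      · by_contra hn
        exact hy0 (hψ y hn)
      · rcases hy with rfl | rfl | rfl <;> (rw [dist_AB]; omega)
  unfold edgeHam
  rw [finsum_mem_inter_support_eq ψ _ _ hset, finsum_mem_coe_finset, Finset.sum_insert,
    Finset.sum_insert, Finset.sum_singleton]
  · ring
  · simp only [Finset.mem_singleton]
    intro h
    have := SB_inj h
    omega
  · simp only [Finset.mem_insert, Finset.mem_singleton, not_or]
    constructor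
    · intro h
      have := SB_inj h
      omega
    · intro h
      have := SB_inj h
      omega

theorem edgeHam_B (S : Set ℂ) (hS : S ⊆ honeycomb) (ψ : ℂ → ℂ) (hψ : ∀ x, x ∉ S → ψ x = 0)
    (p q : ℤ) : edgeHam S ψ (SB p q) = ψ (SA p q) + ψ (SA (p + 1) q) + ψ (SA p (q + 1)) := by
  have hset : {y | y ∈ S ∧ dist y (SB p q) = 1 / √3} ∩ Function.support ψ =
      (({SA p q, SA (p + 1) q, SA p (q + 1)} : Finset ℂ) : Set ℂ) ∩ Function.support ψ := by
    ext y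
    simp only [Set.mem_inter_iff, Set.mem_setOf_eq, Function.mem_support, Finset.coe_insert,
      Finset.coe_singleton, Set.mem_insert_iff, Set.mem_singleton_iff]
    constructor
    · rintro ⟨⟨hyS, hyd⟩, hy0⟩
      refine ⟨?_, hy0⟩
      rcases mem_honeycomb (hS hyS) with ⟨p', q', rfl⟩ | ⟨p', q', rfl⟩
      · rw [dist_comm, dist_AB] at hyd
        rcases hyd with ⟨rfl, rfl⟩ | ⟨h1, rfl⟩ | ⟨rfl, h1⟩
        · simp
        · have : p' = p + 1 := by omega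
          subst this; simp
        · have : q' = q + 1 := by omega
          subst this; simp
      · exact absurd hyd (dist_BB _ _ _ _)
    · rintro ⟨hy, hy0⟩
      refine ⟨⟨?_, ?_⟩, hy0⟩
      · by_contra hn
        exact hy0 (hψ y hn)
      · rcases hy with rfl | rfl | rfl <;> (rw [dist_comm, dist_AB]; omega)
  unfold edgeHam
  rw [finsum_mem_inter_support_eq ψ _ _ hset, finsum_mem_coe_finset, Finset.sum_insert,
    Finset.sum_insert, Finset.sum_singleton]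
  · ring
  · simp only [Finset.mem_singleton]
    intro h
    have := SA_inj h
    omega
  · simp only [Finset.mem_insert, Finset.mem_singleton, not_or]
    constructor
    · intro h
      have := SA_inj h
      omega
    · intro h
      have := SA_inj h
      omega

/-- The inner normal of our half plane. -/
noncomputable def u0 : ℂ := ⟨2 / √3, -4⟩

theorem u0_SA (p q : ℤ) : ⟪u0, SA p q⟫_ℝ = ((3 * q - p : ℤ) : ℝ) := by
  have h0 : √3 ≠ 0 := by positivity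
  rw [inner_re_im, SA_re, SA_im]
  simp only [u0]
  push_cast
  field_simp
  ring

theorem u0_SB (p q : ℤ) : ⟪u0, SB p q⟫_ℝ = ((3 * q - p : ℤ) : ℝ) + 2 / 3 := by
  have h0 : √3 ≠ 0 := by positivity
  rw [inner_re_im, SB_re, SB_im]
  simp only [u0]
  push_cast
  field_simp
  ring

theorem edgeVec_31 : edgeVec 3 1 = SA 3 1 := rfl

theorem u0_edge : ⟪u0, edgeVec 3 1⟫_ℝ = 0 := by
  rw [edgeVec_31, u0_SA]; norm_num

theorem v_SA (p q : ℤ) : ⟪edgeVec 3 1, SA p q⟫_ℝ = ((7 * p + 5 * q : ℤ) : ℝ) / 2 := by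
  rw [inner_re_im, edgeVec_31, SA_re, SA_im, SA_re, SA_im]
  push_cast
  linear_combination (3 + 1) * (p + q) / 4 * sqrt3sq

theorem v_SB (p q : ℤ) : ⟪edgeVec 3 1, SB p q⟫_ℝ = ((7 * p + 5 * q + 4 : ℤ) : ℝ) / 2 := by
  rw [inner_re_im, edgeVec_31, SB_re, SB_im, SA_re, SA_im]
  push_cast
  linear_combination (3 + 1) * (p + q + 2 / 3) / 4 * sqrt3sq

theorem v_norm : ‖edgeVec 3 1‖ ^ 2 = 13 := by
  have : ⟪edgeVec 3 1, edgeVec 3 1⟫_ℝ = ‖edgeVec 3 1‖ ^ 2 := real_inner_self_eq_norm_sq _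
  rw [← this]
  conv_lhs => rw [edgeVec_31]
  have h := v_SA 3 1
  rw [edgeVec_31] at h
  rw [h]; norm_num

theorem SA_mem {p q : ℤ} : SA p q ∈ halfSites u0 (1 / 2) ↔ 1 ≤ 3 * q - p := by
  constructor
  · rintro ⟨_, h⟩
    rw [u0_SA] at h
    by_contra hn
    have : (3 * q - p : ℤ) ≤ 0 := by omega
    have h2 : ((3 * q - p : ℤ) : ℝ) ≤ ((0 : ℤ) : ℝ) := by exact_mod_cast this
    push_cast at h h2
    linarith
  · intro h
    refine ⟨Or.inl ⟨p, q, rfl⟩, ?_⟩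
    rw [u0_SA]
    have h2 : ((1 : ℤ) : ℝ) ≤ ((3 * q - p : ℤ) : ℝ) := by exact_mod_cast h
    push_cast at h2 ⊢
    linarith

theorem SB_mem {p q : ℤ} : SB p q ∈ halfSites u0 (1 / 2) ↔ 0 ≤ 3 * q - p := by
  constructor
  · rintro ⟨_, h⟩
    rw [u0_SB] at h
    by_contra hn
    have : (3 * q - p : ℤ) ≤ -1 := by omega
    have h2 : ((3 * q - p : ℤ) : ℝ) ≤ ((-1 : ℤ) : ℝ) := by exact_mod_cast this
    push_cast at h h2
    linarith
  · intro h
    refine ⟨Or.inr ⟨p, q, rfl⟩, ?_⟩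
    rw [u0_SB]
    have h2 : ((0 : ℤ) : ℝ) ≤ ((3 * q - p : ℤ) : ℝ) := by exact_mod_cast h
    push_cast at h2 ⊢
    linarith

theorem SA_add (p q : ℤ) : SA p q + edgeVec 3 1 = SA (p + 3) (q + 1) := by
  unfold edgeVec SA; push_cast; ring

theorem SB_add (p q : ℤ) : SB p q + edgeVec 3 1 = SB (p + 3) (q + 1) := by
  unfold edgeVec SB; push_cast; ring

end Pool.Agent.R992.HC
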