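import Pool.Agent.R992.HC.Trans

open scoped InnerProductSpace ComplexConjugate Topology

namespace Pool.Agent.R992.HC

theorem summable_conj (a : HH) : Summable (fun n : ℤ => ‖conj (a n)‖ ^ 2) := by
  simpa only [Complex.norm_conj] using summable_sq a

/-- No edge state at `k = ± π/2`. -/
theorem no_state_cos_zero (k : Real.Angle) (hk : k.cos = 0) (E : ℝ) (ψ : ℂ → ℂ) :
    ¬ IsEdgeState (edgeVec 3 1) u0 (1 / 2) k E ψ := by
  intro h
  obtain ⟨a, b, hab, hne⟩ := seq_of_state h
  have hc : (k.toCircle : ℂ) = k.sin * Complex.I := by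
    rw [Real.Angle.coe_toCircle, hk]; simp
  have hs : k.sin = 1 ∨ k.sin = -1 := by
    have := Real.Angle.cos_sq_add_sin_sq k
    rw [hk] at this
    have h2 : (k.sin - 1) * (k.sin + 1) = 0 := by linear_combination this
    rcases mul_eq_zero.mp h2 with h | h
    · left; linarith
    · right; linarith
  rw [hc] at hab
  rcases hs with hs | hs
  · rw [hs] at hab
    simp only [Complex.ofReal_one, one_mul] at hab
    exact hne (no_state E a b hab.ha hab.hb hab.h1 hab.h2)
  · rw [hs] at hab
    simp only [Complex.ofReal_neg, Complex.ofReal_one, neg_mul, one_mul] at hab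
    have h1 := no_state E (mk2 _ (summable_conj a)) (mk2 _ (summable_conj b))
      (fun n hn => by rw [mk2_apply, hab.ha n hn, map_zero])
      (fun n hn => by rw [mk2_apply, hab.hb n hn, map_zero])
      (fun n hn => by
        simp only [mk2_apply]
        have := congrArg conj (hab.h1 n hn)
        simp only [map_add, map_mul, map_neg, Complex.conj_I, Complex.conj_ofReal, neg_neg] at this
        rw [Complex.conj_I]
        linear_combination this)
      (fun n hn => by
        simp only [mk2_apply]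
        have := congrArg conj (hab.h2 n hn)
        simp only [map_add, map_mul, map_neg, Complex.conj_I, Complex.conj_ofReal, neg_neg] at this
        linear_combination this)
    apply hne
    constructor
    · intro n
      have := h1.1 n
      rw [mk2_apply] at this
      exact (map_eq_zero _).mp this
    · intro n
      have := h1.2 n
      rw [mk2_apply] at this
      exact (map_eq_zero _).mp this

theorem continuous_toCircle_coe : Continuous (fun k : Real.Angle => (k.toCircle : ℂ)) := by
  have : (fun k : Real.Angle => (k.toCircle : ℂ)) =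
      fun k => (k.cos : ℂ) + (k.sin : ℂ) * Complex.I := by
    funext k; exact Real.Angle.coe_toCircle k
  rw [this]
  exact (Complex.continuous_ofReal.comp Real.Angle.continuous_cos).add
    ((Complex.continuous_ofReal.comp Real.Angle.continuous_sin).mul continuous_const)

/-- The energy function near `k = 0`. -/
noncomputable def E0 (k : Real.Angle) : ℝ := Real.sqrt (lamInf (k.toCircle : ℂ))

theorem continuous_E0 : Continuous E0 := by
  apply Real.continuous_sqrt.comp
  rw [continuous_iff_continuousAt]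
  intro k
  rw [ContinuousAt, tendsto_iff_dist_tendsto_zero]
  have h1 : Filter.Tendsto (fun j : Real.Angle => 6 * ‖(j.toCircle : ℂ) - (k.toCircle : ℂ)‖) (𝓝 k)
      (𝓝 0) := by
    have h2 := (continuous_toCircle_coe.tendsto k)
    rw [tendsto_iff_norm_sub_tendsto_zero] at h2
    simpa using h2.const_mul 6
  refine squeeze_zero (fun j => dist_nonneg) (fun j => ?_) h1
  rw [Real.dist_eq, abs_le]
  have e1 := lamInf_param (j.toCircle : ℂ) (k.toCircle : ℂ) (Circle.norm_coe _) (Circle.norm_coe _)
  have e2 := lamInf_param (k.toCircle : ℂ) (j.toCircle : ℂ) (Circle.norm_coe _) (Circle.norm_coe _)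
  rw [norm_sub_rev] at e2
  constructor <;> linarith

/-- The initial arc. -/
def I0 : Set Real.Angle := (fun t : ℝ => (t : Real.Angle)) '' Set.Ioo (-(1 / 400)) (1 / 400)

theorem zero_mem_I0 : (0 : Real.Angle) ∈ I0 := ⟨0, by constructor <;> norm_num, by simp⟩

theorem isBranch_I0 : IsBranch (edgeVec 3 1) u0 (1 / 2) I0 E0 where
  isOpen := by
    have : IsOpenMap (fun t : ℝ => (t : Real.Angle)) := QuotientAddGroup.isOpenMap_coe
    exact this _ isOpen_Ioo
  isConnected := by
    refine (isConnected_Ioo (by norm_num)).image _ ?_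
    exact Real.Angle.continuous_coe.continuousOn
  cont := continuous_E0.continuousOn
  eig := by
    rintro _ ⟨t, ⟨ht1, ht2⟩, rfl⟩
    have hn : ‖((t : Real.Angle).toCircle : ℂ) - 1‖ ≤ 1 / 400 := by
      rw [Real.Angle.toCircle_coe, Circle.coe_exp, mul_comm]
      refine Real.norm_exp_I_mul_ofReal_sub_one_le.trans ?_
      rw [Real.norm_eq_abs, abs_le]
      constructor <;> linarith
    obtain ⟨a, b, hab, hne⟩ := exists_near _ (Circle.norm_coe _) hn
    exact ⟨_, state_of_seq (t : Real.Angle) _ a b hab hne⟩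

/-- Every branch extends to an edge state curve. -/
theorem exists_curve (v u : ℂ) (c : ℝ) (I1 : Set Real.Angle) (E1 : Real.Angle → ℝ)
    (h1 : IsBranch v u c I1 E1) :
    ∃ I E, IsEdgeStateCurve v u c I E ∧ I1 ⊆ I := by
  classical
  set T := {P : Set Real.Angle × (Real.Angle → ℝ) // IsBranch v u c P.1 P.2 ∧ I1 ⊆ P.1} with hT
  set r : T → T → Prop := fun P Q => P.1.1 ⊆ Q.1.1 ∧ Set.EqOn Q.1.2 P.1.2 P.1.1 with hr
  obtain ⟨k0, hk0⟩ := h1.isConnected.nonempty
  have hmax : ∃ m : T, ∀ a, r m a → r a m := by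
    apply exists_maximal_of_chains_bounded
    · intro C hC
      rcases C.eq_empty_or_nonempty with rfl | ⟨P0, hP0⟩
      · exact ⟨⟨(I1, E1), h1, subset_rfl⟩, by simp⟩
      · -- compatibility
        have hcompat : ∀ P ∈ C, ∀ Q ∈ C, ∀ x, x ∈ P.1.1 → x ∈ Q.1.1 → P.1.2 x = Q.1.2 x := by
          intro P hP Q hQ x hxP hxQ
          by_cases hPQ : P = Q
          · rw [hPQ]
          · rcases hC hP hQ hPQ with h | h
            · exact (h.2 hxP).symm
            · exact h.2 hxQ
        set IU : Set Real.Angle := ⋃ P ∈ C, P.1.1 with hIU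
        set EU : Real.Angle → ℝ := fun x =>
          if h : ∃ P ∈ C, x ∈ P.1.1 then h.choose.1.2 x else 0 with hEU
        have hEUeq : ∀ P ∈ C, ∀ x ∈ P.1.1, EU x = P.1.2 x := by
          intro P hP x hx
          have h : ∃ P ∈ C, x ∈ P.1.1 := ⟨P, hP, hx⟩
          simp only [hEU]
          rw [dif_pos h]
          exact hcompat _ h.choose_spec.1 _ hP x h.choose_spec.2 hx
        have hsub : ∀ P ∈ C, P.1.1 ⊆ IU := fun P hP x hx => Set.mem_biUnion hP hx
        have hbr : IsBranch v u c IU EU := by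
          refine ⟨?_, ?_, ?_, ?_⟩
          · exact isOpen_biUnion (fun P _ => P.2.1.isOpen)
          · refine ⟨⟨k0, hsub P0 hP0 (P0.2.2 hk0)⟩, ?_⟩
            rw [hIU, ← Set.sUnion_image]
            refine isPreconnected_sUnion k0 _ ?_ ?_
            · rintro _ ⟨P, hP, rfl⟩; exact P.2.2 hk0
            · rintro _ ⟨P, hP, rfl⟩; exact P.2.1.isConnected.isPreconnected
          · intro x hx
            obtain ⟨P, hP, hxP⟩ := Set.mem_iUnion₂.mp hx
            have hc1 : ContinuousAt P.1.2 x := P.2.1.cont.continuousAt (P.2.1.isOpen.mem_nhds hxP)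
            have hev : EU =ᶠ[𝓝 x] P.1.2 := by
              filter_upwards [P.2.1.isOpen.mem_nhds hxP] with y hy
              exact hEUeq P hP y hy
            exact (hc1.congr hev.symm).continuousWithinAt
          · intro x hx
            obtain ⟨P, hP, hxP⟩ := Set.mem_iUnion₂.mp hx
            rw [hEUeq P hP x hxP]
            exact P.2.1.eig x hxP
        refine ⟨⟨(IU, EU), hbr, P0.2.2.trans (hsub P0 hP0)⟩, ?_⟩
        intro P hP
        exact ⟨hsub P hP, fun x hx => hEUeq P hP x hx⟩
    · intro P Q R hPQ hQR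
      refine ⟨hPQ.1.trans hQR.1, fun x hx => ?_⟩
      rw [hQR.2 (hPQ.1 hx), hPQ.2 hx]
  obtain ⟨m, hm⟩ := hmax
  refine ⟨m.1.1, m.1.2, ⟨m.2.1, ?_⟩, m.2.2⟩
  intro I' E' hbr hsub heq
  have h2 := hm ⟨(I', E'), hbr, m.2.2.trans hsub⟩ ⟨hsub, heq⟩
  exact Set.Subset.antisymm h2.1 hsub

theorem cos_of_crossing (k : Real.Angle) (hk : k ∈ crossings (edgeVec 3 1)) : k.cos = -(1 / 2) := by
  obtain ⟨κ, hκ, rfl⟩ := hk
  set s := ⟪κ, vA⟫_ℝ with hs
  set t := ⟪κ, vB⟫_ℝ with ht
  have hv : ⟪κ, edgeVec 3 1⟫_ℝ = 3 * s + t := by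
    rw [hs, ht, inner_re_im, inner_re_im, inner_re_im]
    simp [edgeVec]
    ring
  rw [hv, Real.Angle.cos_coe]
  have hre := congrArg Complex.re hκ
  have him := congrArg Complex.im hκ
  rw [mul_comm Complex.I, mul_comm Complex.I] at hre him
  simp only [Complex.add_re, Complex.add_im, Complex.exp_ofReal_mul_I_re,
    Complex.exp_ofReal_mul_I_im, Complex.one_re, Complex.one_im, Complex.zero_re,
    Complex.zero_im] at hre him
  have p1 := Real.sin_sq_add_cos_sq s
  have p2 := Real.sin_sq_add_cos_sq t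
  have h1 : Real.sin t = -Real.sin s := by linarith
  have h2 : Real.cos t = -1 - Real.cos s := by linarith
  rw [h1, h2] at p2
  have h3 : Real.cos s = -(1 / 2) := by nlinarith
  have h4 : Real.cos t = -(1 / 2) := by rw [h2, h3]; norm_num
  have h5 : Real.sin s ^ 2 = 3 / 4 := by rw [h3] at p1; linarith
  have h6 : 3 * s + t = 2 * s + (s + t) := by ring
  rw [h6, Real.cos_add, Real.cos_add, Real.sin_add, Real.cos_two_mul, Real.sin_two_mul, h1, h3, h4]
  linear_combination -(1 / 2) * h5

/-- **Main theorem**: the answer to Q1 is negative. -/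
theorem not_Q1 : ¬ Q1 := by
  intro hQ
  obtain ⟨I, E, hcurve, hI⟩ := exists_curve _ _ _ I0 E0 isBranch_I0
  have h0 : (0 : Real.Angle) ∈ I := hI zero_mem_I0
  have hu0 : u0 ≠ 0 := by
    intro h
    have := congrArg Complex.im h
    simp [u0] at this
  have hcop : IsCoprime (3:ℤ) 1 := isCoprime_one_right
  obtain ⟨α, β, hαβ, hβ, hIeq, ⟨hα, _⟩, _⟩ := hQ 3 1 hcop u0 (1 / 2) hu0 u0_edge I E hcurve
  have hne : ∀ k ∈ I, k.cos ≠ 0 := by
    intro k hk hc
    obtain ⟨ψ, hψ⟩ := hcurve.1.eig k hk
    exact no_state_cos_zero k hc _ ψ hψ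
  have hpos : ∀ k ∈ I, 0 < k.cos := by
    intro k hk
    by_contra hn
    push Not at hn
    have hcos0 : (0 : Real.Angle).cos = 1 := by
      rw [← Real.Angle.coe_zero, Real.Angle.cos_coe, Real.cos_zero]
    have := hcurve.1.isConnected.isPreconnected.intermediate_value hk h0
      Real.Angle.continuous_cos.continuousOn
    have h00 : (0:ℝ) ∈ Set.Icc k.cos (0 : Real.Angle).cos := ⟨hn, by rw [hcos0]; norm_num⟩
    obtain ⟨k', hk', hc⟩ := this h00
    exact hne k' hk' hc
  have hcα := cos_of_crossing _ hα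
  rw [Real.Angle.cos_coe] at hcα
  have hlim : 0 ≤ Real.cos α := by
    have hmem : α ∈ closure (Set.Ioo α β) := by
      rw [closure_Ioo hαβ.ne]
      exact ⟨le_rfl, hαβ.le⟩
    have hsub : Set.Ioo α β ⊆ {t : ℝ | 0 ≤ Real.cos t} := by
      intro t ht
      have : (t : Real.Angle) ∈ I := by rw [hIeq]; exact ⟨t, ht, rfl⟩
      have := hpos _ this
      rw [Real.Angle.cos_coe] at this
      exact this.le
    have hcl : IsClosed {t : ℝ | 0 ≤ Real.cos t} := isClosed_le continuous_const Real.continuous_cos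
    exact closure_minimal hsub hcl hmem
  linarith

end Pool.Agent.R992.HC
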