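import Pool.Agent.R992.HC.Embedded
import Pool.Agent.R992.HC.Cert2

open scoped InnerProductSpace ComplexConjugate ENNReal

namespace Pool.Agent.R992.HC

theorem Lop_adj (w : ℂ) (x y : HH) : ⟪Lop (conj w) x, y⟫_ℂ = ⟪x, Lst w y⟫_ℂ := by
  rw [← inner_conj_symm, ← Lst_adj, inner_conj_symm]

theorem Lop_Lst_comm (w v : ℂ) (x : HH) : Lst w (Lop v x) = Lop v (Lst w x) := by
  ext n
  simp only [Lst_apply, Lop_apply]
  have e1 : n - 1 + 1 = n + 1 - 1 := by ring
  have e2 : n - 1 - 3 = n - 3 - 1 := by ring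
  have e3 : n + 3 + 1 = n + 1 + 3 := by ring
  have e4 : n + 3 - 3 = n - 3 + 3 := by ring
  rw [e1, e2, e3, e4]
  ring

theorem norm_Lop_eq (w : ℂ) (x : HH) : ‖Lop (conj w) x‖ ^ 2 = ‖Lst w x‖ ^ 2 := by
  have : ((‖Lop (conj w) x‖ ^ 2 : ℝ) : ℂ) = ((‖Lst w x‖ ^ 2 : ℝ) : ℂ) := by
    rw [normsq_complex, normsq_complex, Lop_adj, Lst_adj, Lop_Lst_comm]
  exact_mod_cast this

theorem Lop_sh (w : ℂ) (j : ℤ) (a : HH) : Lop w (sh j a) = sh j (Lop w a) := by
  simp only [Lop, map_add, map_smul, sh_sh, add_comm j]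

theorem head2_zero_of (a : HH) (h1 : a 1 = 0) (h2 : a 2 = 0) (n : ℤ) : (head2 a) n = 0 := by
  rw [head2_apply, h1, h2]
  split_ifs <;> rfl

/-- Unique continuation: if the first two coordinates vanish then everything vanishes. -/
theorem unique_cont (w : ℂ) (hw : w ≠ 0) (a : HH) (lam : ℝ)
    (ha : ∀ n ≤ 0, a n = 0)
    (heq : ∀ n ≥ 1, (Lop (conj w) (Lst w a)) n = lam * a n + (head2 a) n)
    (h1 : a 1 = 0) (h2 : a 2 = 0) : ∀ n, a n = 0 := by
  have ha2 : ∀ n ≤ 2, a n = 0 := by
    intro n hn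
    rcases lt_or_ge 0 n with h | h
    · have : n = 1 ∨ n = 2 := by omega
      rcases this with rfl | rfl
      · exact h1
      · exact h2
    · exact ha n h
  set f : HH := Lop (conj w) (Lst w a) - (lam : ℂ) • a with hf
  have hfn : ∀ n, f n = (Lop (conj w) (Lst w a)) n - lam * a n := by
    intro n; simp only [hf, lp.coeFn_sub, lp.coeFn_smul, Pi.sub_apply, Pi.smul_apply, smul_eq_mul]
  have hfpos : ∀ n ≥ 1, f n = 0 := by
    intro n hn
    rw [hfn, heq n hn, head2_zero_of a h1 h2]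
    ring
  have hexp : ∀ n, (Lop (conj w) (Lst w a)) n =
      (a n + a (n - 1) + w * a (n + 3)) + (a (n + 1) + a n + w * a (n + 4))
        + conj w * (a (n - 3) + a (n - 4) + w * a n) := by
    intro n
    rw [Lop_apply, Lst_apply, Lst_apply, Lst_apply]
    have e1 : n + 1 - 1 = n := by ring
    have e2 : n + 1 + 3 = n + 4 := by ring
    have e3 : n - 3 - 1 = n - 4 := by ring
    have e4 : n - 3 + 3 = n := by ring
    rw [e1, e2, e3, e4]
  have hf0 : f 0 = w * (a 3 + a 4) := by
    rw [hfn, hexp, ha2 0 (by norm_num), ha2 (0 - 1) (by norm_num), ha2 (0 + 1) (by norm_num),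
      ha2 (0 - 3) (by norm_num), ha2 (0 - 4) (by norm_num), show (0:ℤ) + 3 = 3 from rfl,
      show (0:ℤ) + 4 = 4 from rfl]
    ring
  have hfm1 : f (-1) = w * a 3 := by
    rw [hfn, hexp, ha2 (-1) (by norm_num), ha2 (-1 - 1) (by norm_num), ha2 (-1 + 3) (by norm_num),
      ha2 (-1 + 1) (by norm_num), ha2 (-1 - 3) (by norm_num), ha2 (-1 - 4) (by norm_num),
      show (-1:ℤ) + 4 = 3 from rfl]
    ring
  have hfneg : ∀ n ≤ -2, f n = 0 := by
    intro n hn
    rw [hfn, hexp, ha2 n (by omega), ha2 (n - 1) (by omega), ha2 (n + 3) (by omega),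
      ha2 (n + 1) (by omega), ha2 (n + 4) (by omega), ha2 (n - 3) (by omega), ha2 (n - 4) (by omega)]
    ring
  have hsupp : ∀ n, n ∉ ({0, -1} : Finset ℤ) → f n = 0 := by
    intro n hn
    simp only [Finset.mem_insert, Finset.mem_singleton, not_or] at hn
    rcases lt_or_ge n 1 with h | h
    · exact hfneg n (by omega)
    · exact hfpos n h
  have horth0 : ∀ j : ℤ, 0 ≤ j → ⟪sh j a, f⟫_ℂ = 0 := by
    intro j hj
    apply inner_eq_zero_of_disjoint
    intro n
    rcases lt_or_ge n 1 with h | h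
    · left; rw [sh_apply]; apply ha2; omega
    · right; exact hfpos n h
  have horth : ∀ j : ℤ, ⟪sh j a, f⟫_ℂ = 0 := by
    intro j
    rcases le_total 0 j with h | h
    · exact horth0 j h
    · have h3 : ⟪sh j a, f⟫_ℂ = ⟪f, sh (-j) a⟫_ℂ := by
        have e1 : ⟪sh j a, f⟫_ℂ = ⟪sh j f, a⟫_ℂ := by
          have e2 : sh j f = Lop (conj w) (Lst w (sh j a)) - (lam : ℂ) • sh j a := by
            rw [hf, map_sub, map_smul, Lst_sh, Lop_sh]
          rw [e2, hf, inner_sub_right, inner_sub_left, inner_smul_right, inner_smul_left,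
            ← Lst_adj, Lop_adj, Complex.conj_ofReal]
        rw [e1]
        have := inner_sh_sh j 0 f a
        simpa using this
      rw [h3, ← inner_conj_symm, horth0 (-j) (by omega), map_zero]
  have hsum : ∀ j : ℤ, ⟪sh j a, f⟫_ℂ = f 0 * conj (a (-j)) + f (-1) * conj (a (-1 - j)) := by
    intro j
    rw [inner_eq, tsum_eq_sum (s := ({0, -1} : Finset ℤ))
      (fun n hn => by rw [hsupp n hn, inner_zero_right])]
    rw [Finset.sum_pair (by norm_num)]
    simp [sh_apply]
  have r3 := hsum (-3)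
  rw [horth, hf0, hfm1, show -(-3:ℤ) = 3 from rfl, show (-1:ℤ) - (-3) = 2 from rfl,
    ha2 2 (by norm_num), map_zero, mul_zero, add_zero] at r3
  have r4 := hsum (-4)
  rw [horth, hf0, hfm1, show -(-4:ℤ) = 4 from rfl, show (-1:ℤ) - (-4) = 3 from rfl] at r4
  have a3 : a 3 = 0 := by
    by_contra hne
    have h5 : a 3 + a 4 = 0 := by
      have h6 : w * (a 3 + a 4) * conj (a 3) = 0 := r3.symm
      rcases mul_eq_zero.mp h6 with h | h
      · rcases mul_eq_zero.mp h with h | h
        · exact absurd h hw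
        · exact h
      · exact absurd ((map_eq_zero _).mp h) hne
    rw [h5] at r4
    simp only [mul_zero, zero_mul, zero_add] at r4
    have h6 : w * a 3 * conj (a 3) = 0 := r4.symm
    rcases mul_eq_zero.mp h6 with h | h
    · rcases mul_eq_zero.mp h with h | h
      · exact hw h
      · exact hne h
    · exact hne ((map_eq_zero _).mp h)
  have a4 : a 4 = 0 := by
    rw [a3] at r4
    simp only [zero_add, mul_zero, zero_mul, add_zero] at r4
    have h6 : w * a 4 * conj (a 4) = 0 := r4.symm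
    rcases mul_eq_zero.mp h6 with h | h
    · rcases mul_eq_zero.mp h with h | h
      · exact absurd h hw
      · exact h
    · exact (map_eq_zero _).mp h
  have hall : ∀ N : ℕ, ∀ n : ℤ, n ≤ 4 + N → a n = 0 := by
    intro N
    induction N with
    | zero =>
      intro n hn
      have : n ≤ 2 ∨ n = 3 ∨ n = 4 := by omega
      rcases this with h | rfl | rfl
      · exact ha2 n h
      · exact a3
      · exact a4
    | succ N ih =>
      intro n hn
      rcases lt_or_ge n (4 + ((N + 1 : ℕ) : ℤ)) with h | h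
      · exact ih n (by push_cast at h; omega)
      · have hn' : n = (N + 1 : ℤ) + 4 := by push_cast at hn h; omega
        have h7 := heq (N + 1 : ℤ) (by omega)
        rw [head2_zero_of a h1 h2, hexp, ih (N + 1 : ℤ) (by omega), ih ((N + 1 : ℤ) - 1) (by omega),
          ih ((N + 1 : ℤ) + 3) (by omega), ih ((N + 1 : ℤ) + 1) (by omega),
          ih ((N + 1 : ℤ) - 3) (by omega), ih ((N + 1 : ℤ) - 4) (by omega)] at h7
        have h8 : w * a ((N + 1 : ℤ) + 4) = 0 := by linear_combination h7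
        rw [hn']
        exact (mul_eq_zero.mp h8).resolve_left hw
  intro n
  exact hall n.toNat n (by omega)

/-- The two edge equations give the equation for `a`. -/
theorem eq_of_edge (w : ℂ) (hw : w * conj w = 1) (E : ℝ) (a b : HH)
    (ha : ∀ n ≤ 0, a n = 0) (hb : ∀ n < 0, b n = 0)
    (h1 : ∀ n ≥ 1, b n + b (n + 1) + conj w * b (n - 3) = E * a n)
    (h2 : ∀ n ≥ 0, a n + a (n - 1) + w * a (n + 3) = E * b n) :
    ∀ n ≥ 1, (Lop (conj w) (Lst w a)) n = (E ^ 2 : ℝ) * a n + (head2 a) n := by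
  intro n hn
  have hL : ∀ m ≥ 0, (Lst w a) m = E * b m := by
    intro m hm
    rw [Lst_apply]; exact h2 m hm
  rw [Lop_apply, hL n (by omega), hL (n + 1) (by omega)]
  rw [head2_apply]
  by_cases hn1 : n = 1
  · subst hn1
    have : (Lst w a) (1 - 3) = w * a 1 := by
      rw [Lst_apply, ha (1 - 3) (by norm_num), ha (1 - 3 - 1) (by norm_num),
        show (1:ℤ) - 3 + 3 = 1 from rfl]
      ring
    rw [this, if_pos rfl]
    have h3 := h1 1 (by norm_num)
    rw [hb (1 - 3) (by norm_num), show (1:ℤ) + 1 = 2 from rfl] at h3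
    push_cast
    linear_combination E * h3 + a 1 * hw
  · by_cases hn2 : n = 2
    · subst hn2
      have : (Lst w a) (2 - 3) = w * a 2 := by
        rw [Lst_apply, ha (2 - 3) (by norm_num), ha (2 - 3 - 1) (by norm_num),
          show (2:ℤ) - 3 + 3 = 2 from rfl]
        ring
      rw [this, if_neg (by norm_num), if_pos rfl]
      have h3 := h1 2 (by norm_num)
      rw [hb (2 - 3) (by norm_num), show (2:ℤ) + 1 = 3 from rfl] at h3
      push_cast
      linear_combination E * h3 + a 2 * hw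
    · rw [if_neg hn1, if_neg hn2, hL (n - 3) (by omega)]
      push_cast
      linear_combination E * h1 n hn

theorem norm_head2 (a : HH) : ‖head2 a‖ ^ 2 = ‖a 1‖ ^ 2 + ‖a 2‖ ^ 2 := by
  rw [norm_sq_of_support (head2 a) {1, 2}]
  · rw [Finset.sum_pair (by norm_num)]
    simp [head2_apply]
  · intro n hn
    simp only [Finset.mem_insert, Finset.mem_singleton, not_or] at hn
    rw [head2_apply, if_neg hn.1, if_neg hn.2]

theorem quad_zero {P1 P2 G X Y : ℝ} (hP2 : 0 < P2) (hdet : G ^ 2 < P1 * P2)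
    (h : P1 * X ^ 2 + P2 * Y ^ 2 ≤ 2 * G * X * Y) : X = 0 ∧ Y = 0 := by
  have e : (P2 * Y - G * X) ^ 2 + (P1 * P2 - G ^ 2) * X ^ 2 ≤ 0 := by
    have := mul_le_mul_of_nonneg_left h hP2.le
    nlinarith
  have hX : X = 0 := by
    by_contra hne
    have : 0 < X ^ 2 := by positivity
    nlinarith [sq_nonneg (P2 * Y - G * X)]
  subst hX
  refine ⟨rfl, ?_⟩
  by_contra hne
  have : 0 < Y ^ 2 := by positivity
  nlinarith

theorem cval_eq (z : ℂ) (hz : z * conj z = 1) :
    (cval z).re = ‖Complex.I + z ^ 3 + z ^ 4‖ ^ 2 := by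
  have h : ((‖Complex.I + z ^ 3 + z ^ 4‖ ^ 2 : ℝ) : ℂ) = cval z := by
    push_cast
    rw [← Complex.mul_conj']
    simp only [map_add, map_pow, Complex.conj_I, cval]
    have hI : Complex.I * Complex.I = -1 := Complex.I_mul_I
    have h3 : z ^ 3 * conj z ^ 3 = 1 := by rw [← mul_pow, hz, one_pow]
    have h4 : z ^ 4 * conj z ^ 4 = 1 := by rw [← mul_pow, hz, one_pow]
    have h5 : z ^ 4 * conj z ^ 3 = z := by
      calc z ^ 4 * conj z ^ 3 = z * (z ^ 3 * conj z ^ 3) := by ring
        _ = z := by rw [h3, mul_one]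
    have h6 : z ^ 3 * conj z ^ 4 = conj z := by
      calc z ^ 3 * conj z ^ 4 = conj z * (z ^ 3 * conj z ^ 3) := by ring
        _ = conj z := by rw [h3, mul_one]
    linear_combination -hI + h3 + h4 + h5 + h6
  rw [← h, Complex.ofReal_re]

end Pool.Agent.R992.HC
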