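import Pool.Agent.R992.HC.Shift

open scoped InnerProductSpace ComplexConjugate ENNReal

namespace Pool.Agent.R992.HC

/-- The operator `(Lst w x) n = x n + x (n-1) + w * x (n+3)`. -/
noncomputable def Lst (w : ℂ) (x : HH) : HH := x + sh 1 x + w • sh (-3) x

/-- Its adjoint (for `conj w`), `(Lop w x) n = x n + x (n+1) + w * x (n-3)`. -/
noncomputable def Lop (w : ℂ) (x : HH) : HH := x + sh (-1) x + w • sh 3 x

theorem Lst_apply (w : ℂ) (x : HH) (n : ℤ) : (Lst w x) n = x n + x (n - 1) + w * x (n + 3) := by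
  simp [Lst]

theorem Lop_apply (w : ℂ) (x : HH) (n : ℤ) : (Lop w x) n = x n + x (n + 1) + w * x (n - 3) := by
  simp [Lop]

theorem Lst_adj (w : ℂ) (x y : HH) : ⟪Lst w x, y⟫_ℂ = ⟪x, Lop (conj w) y⟫_ℂ := by
  have h1 : ⟪sh 1 x, y⟫_ℂ = ⟪x, sh (-1) y⟫_ℂ := by
    have := inner_sh_sh 1 0 x y
    simpa using this
  have h3 : ⟪sh (-3) x, y⟫_ℂ = ⟪x, sh 3 y⟫_ℂ := by
    have := inner_sh_sh (-3) 0 x y
    simpa using this
  simp only [Lst, Lop, inner_add_left, inner_add_right, inner_smul_left, inner_smul_right, h1, h3]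

theorem normsq_complex (x : HH) : ((‖x‖ ^ 2 : ℝ) : ℂ) = ⟪x, x⟫_ℂ := by
  rw [inner_self_eq_norm_sq_to_K]
  norm_cast

theorem inner_self_conj (x : HH) : conj ⟪x, x⟫_ℂ = ⟪x, x⟫_ℂ := inner_conj_symm x x

theorem norm_Lst_sq (w : ℂ) (hw : w * conj w = 1) (x : HH) :
    ((‖Lst w x‖ ^ 2 : ℝ) : ℂ) = 3 * ⟪x, x⟫_ℂ + (⟪x, sh 1 x⟫_ℂ + conj ⟪x, sh 1 x⟫_ℂ)
      + (conj w * ⟪x, sh 3 x⟫_ℂ + w * conj ⟪x, sh 3 x⟫_ℂ)
      + (conj w * ⟪x, sh 4 x⟫_ℂ + w * conj ⟪x, sh 4 x⟫_ℂ) := by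
  rw [normsq_complex]
  have a1 : ⟪sh 1 x, x⟫_ℂ = conj ⟪x, sh 1 x⟫_ℂ := (inner_conj_symm _ _).symm
  have a2 : ⟪sh 1 x, sh 1 x⟫_ℂ = ⟪x, x⟫_ℂ := by simp
  have a3 : ⟪sh (-3) x, sh (-3) x⟫_ℂ = ⟪x, x⟫_ℂ := by simp
  have a4 : ⟪sh (-3) x, x⟫_ℂ = ⟪x, sh 3 x⟫_ℂ := by
    have := inner_sh_sh (-3) 0 x x
    simpa using this
  have a5 : ⟪x, sh (-3) x⟫_ℂ = conj ⟪x, sh 3 x⟫_ℂ := inner_sh_neg 3 x
  have a6 : ⟪sh 1 x, sh (-3) x⟫_ℂ = conj ⟪x, sh 4 x⟫_ℂ := by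
    rw [inner_sh_sh, ← inner_sh_neg]
    norm_num
  have a7 : ⟪sh (-3) x, sh 1 x⟫_ℂ = ⟪x, sh 4 x⟫_ℂ := by
    rw [inner_sh_sh]
    norm_num
  simp only [Lst, inner_add_left, inner_add_right, inner_smul_left, inner_smul_right,
    a1, a2, a3, a4, a5, a6, a7]
  linear_combination ⟪x, x⟫_ℂ * hw

theorem norm_psi_sq (c0 c1 c2 c3 : ℂ) (x : HH) :
    ((‖c0 • x + c1 • sh 1 x + c2 • sh 2 x + c3 • sh 3 x‖ ^ 2 : ℝ) : ℂ) =
      (conj c0 * c0 + conj c1 * c1 + conj c2 * c2 + conj c3 * c3) * ⟪x, x⟫_ℂ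
      + ((conj c0 * c1 + conj c1 * c2 + conj c2 * c3) * ⟪x, sh 1 x⟫_ℂ
        + conj ((conj c0 * c1 + conj c1 * c2 + conj c2 * c3) * ⟪x, sh 1 x⟫_ℂ))
      + ((conj c0 * c2 + conj c1 * c3) * ⟪x, sh 2 x⟫_ℂ
        + conj ((conj c0 * c2 + conj c1 * c3) * ⟪x, sh 2 x⟫_ℂ))
      + (conj c0 * c3 * ⟪x, sh 3 x⟫_ℂ + conj (conj c0 * c3 * ⟪x, sh 3 x⟫_ℂ)) := by
  rw [normsq_complex]
  have b11 : ⟪sh 1 x, sh 1 x⟫_ℂ = ⟪x, x⟫_ℂ := by simp
  have b22 : ⟪sh 2 x, sh 2 x⟫_ℂ = ⟪x, x⟫_ℂ := by simp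
  have b33 : ⟪sh 3 x, sh 3 x⟫_ℂ = ⟪x, x⟫_ℂ := by simp
  have b12 : ⟪sh 1 x, sh 2 x⟫_ℂ = ⟪x, sh 1 x⟫_ℂ := by rw [inner_sh_sh]; norm_num
  have b13 : ⟪sh 1 x, sh 3 x⟫_ℂ = ⟪x, sh 2 x⟫_ℂ := by rw [inner_sh_sh]; norm_num
  have b23 : ⟪sh 2 x, sh 3 x⟫_ℂ = ⟪x, sh 1 x⟫_ℂ := by rw [inner_sh_sh]; norm_num
  have b21 : ⟪sh 2 x, sh 1 x⟫_ℂ = conj ⟪x, sh 1 x⟫_ℂ := by rw [← b12, inner_conj_symm]
  have b31 : ⟪sh 3 x, sh 1 x⟫_ℂ = conj ⟪x, sh 2 x⟫_ℂ := by rw [← b13, inner_conj_symm]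
  have b32 : ⟪sh 3 x, sh 2 x⟫_ℂ = conj ⟪x, sh 1 x⟫_ℂ := by rw [← b23, inner_conj_symm]
  have b10 : ⟪sh 1 x, x⟫_ℂ = conj ⟪x, sh 1 x⟫_ℂ := (inner_conj_symm _ _).symm
  have b20 : ⟪sh 2 x, x⟫_ℂ = conj ⟪x, sh 2 x⟫_ℂ := (inner_conj_symm _ _).symm
  have b30 : ⟪sh 3 x, x⟫_ℂ = conj ⟪x, sh 3 x⟫_ℂ := (inner_conj_symm _ _).symm
  simp only [inner_add_left, inner_add_right, inner_smul_left, inner_smul_right,
    b11, b22, b33, b12, b13, b23, b21, b31, b32, b10, b20, b30, map_mul, map_add,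
    Complex.conj_conj]
  ring

/-- The polynomials `p0, ..., p3` in the factorisation of the symbol. -/
noncomputable def p0 (z : ℂ) : ℂ := Complex.I * z ^ 3 * (4 * z + 3) - z
noncomputable def p1 (z : ℂ) : ℂ := Complex.I * z ^ 2 * (3 * z + 2)
noncomputable def p2 (z : ℂ) : ℂ := Complex.I * z * (2 * z + 1)
noncomputable def p3 (z : ℂ) : ℂ := Complex.I * z

/-- the value of the symbol of `|g|^2` at `z` (for `w = I`). -/
noncomputable def cval (z : ℂ) : ℂ :=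
  3 + (z + conj z) + (-Complex.I * z ^ 3 + Complex.I * conj z ^ 3)
    + (-Complex.I * z ^ 4 + Complex.I * conj z ^ 4)

theorem taylor (z : ℂ) (hz : z * conj z = 1) (hp : conj (p0 z) = p0 z) (x : HH) :
    ((‖Lst Complex.I x‖ ^ 2 : ℝ) : ℂ) - cval z * ⟪x, x⟫_ℂ =
      p0 z * ⟪sh 1 x - z • x, sh 1 x - z • x⟫_ℂ
      + (p1 z * ⟪sh 1 x - z • x, sh 1 (sh 1 x - z • x)⟫_ℂ
        + conj (p1 z * ⟪sh 1 x - z • x, sh 1 (sh 1 x - z • x)⟫_ℂ))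
      + (p2 z * ⟪sh 1 x - z • x, sh 2 (sh 1 x - z • x)⟫_ℂ
        + conj (p2 z * ⟪sh 1 x - z • x, sh 2 (sh 1 x - z • x)⟫_ℂ))
      + (p3 z * ⟪sh 1 x - z • x, sh 3 (sh 1 x - z • x)⟫_ℂ
        + conj (p3 z * ⟪sh 1 x - z • x, sh 3 (sh 1 x - z • x)⟫_ℂ)) := by
  rw [norm_Lst_sq Complex.I (by simp)]
  set r0 := ⟪x, x⟫_ℂ with hr0
  set r1 := ⟪x, sh 1 x⟫_ℂ with hr1
  set r2 := ⟪x, sh 2 x⟫_ℂ with hr2
  set r3 := ⟪x, sh 3 x⟫_ℂ with hr3
  set r4 := ⟪x, sh 4 x⟫_ℂ with hr4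
  have hr0' : conj r0 = r0 := inner_self_conj x
  have R0 : ⟪sh 1 x - z • x, sh 1 x - z • x⟫_ℂ = 2 * r0 - conj z * conj (conj r1) - z * conj r1 := by
    have b10 : ⟪sh 1 x, x⟫_ℂ = conj r1 := (inner_conj_symm _ _).symm
    have b11 : ⟪sh 1 x, sh 1 x⟫_ℂ = r0 := by simp [hr0]
    simp only [inner_sub_left, inner_sub_right, inner_smul_left, inner_smul_right, b10, b11,
      ← hr1, ← hr0, Complex.conj_conj]
    linear_combination r0 * hz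
  have R1 : ⟪sh 1 x - z • x, sh 1 (sh 1 x - z • x)⟫_ℂ = 2 * r1 - z * r0 - conj z * r2 := by
    rw [map_sub, map_smul, sh_sh]
    have e1 : ⟪sh 1 x, sh (1+1) x⟫_ℂ = r1 := by rw [inner_sh_sh]; norm_num [hr1]
    have e2 : ⟪sh 1 x, sh 1 x⟫_ℂ = r0 := by simp [hr0]
    have e3 : ⟪x, sh (1+1) x⟫_ℂ = r2 := by norm_num [hr2]
    simp only [inner_sub_left, inner_sub_right, inner_smul_left, inner_smul_right, e1, e2, e3,
      ← hr1]
    linear_combination r1 * hz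
  have R2 : ⟪sh 1 x - z • x, sh 2 (sh 1 x - z • x)⟫_ℂ = 2 * r2 - z * r1 - conj z * r3 := by
    rw [map_sub, map_smul, sh_sh]
    have e1 : ⟪sh 1 x, sh (2+1) x⟫_ℂ = r2 := by rw [inner_sh_sh]; norm_num [hr2]
    have e2 : ⟪sh 1 x, sh 2 x⟫_ℂ = r1 := by rw [inner_sh_sh]; norm_num [hr1]
    have e3 : ⟪x, sh (2+1) x⟫_ℂ = r3 := by norm_num [hr3]
    simp only [inner_sub_left, inner_sub_right, inner_smul_left, inner_smul_right, e1, e2, e3,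
      ← hr2]
    linear_combination r2 * hz
  have R3 : ⟪sh 1 x - z • x, sh 3 (sh 1 x - z • x)⟫_ℂ = 2 * r3 - z * r2 - conj z * r4 := by
    rw [map_sub, map_smul, sh_sh]
    have e1 : ⟪sh 1 x, sh (3+1) x⟫_ℂ = r3 := by rw [inner_sh_sh]; norm_num [hr3]
    have e2 : ⟪sh 1 x, sh 3 x⟫_ℂ = r2 := by rw [inner_sh_sh]; norm_num [hr2]
    have e3 : ⟪x, sh (3+1) x⟫_ℂ = r4 := by norm_num [hr4]
    simp only [inner_sub_left, inner_sub_right, inner_smul_left, inner_smul_right, e1, e2, e3,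
      ← hr3]
    linear_combination r3 * hz
  rw [R0, R1, R2, R3]
  have hz' : conj z * z = 1 := by rw [mul_comm]; exact hz
  -- coefficient identities
  have c4 : conj z * p3 z = Complex.I := by
    unfold p3; linear_combination Complex.I * hz
  have c3 : 2 * p3 z - conj z * p2 z = -Complex.I := by
    unfold p3 p2; linear_combination (-Complex.I * (2 * z + 1)) * hz
  have c2 : 2 * p2 z - conj z * p1 z - z * p3 z = 0 := by
    unfold p3 p2 p1; linear_combination (-Complex.I * z * (3 * z + 2)) * hz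
  have c1 : 2 * p1 z - z * p2 z - conj z * p0 z = 1 := by
    unfold p0 p2 p1
    linear_combination (-Complex.I * z ^ 2 * (4 * z + 3) + 1) * hz
  have c4' : z * conj (p3 z) = -Complex.I := by
    have := congrArg conj c4; simpa using this
  have c3' : 2 * conj (p3 z) - z * conj (p2 z) = Complex.I := by
    have := congrArg conj c3; simpa [Complex.conj_ofNat] using this
  have c2' : 2 * conj (p2 z) - z * conj (p1 z) - conj z * conj (p3 z) = 0 := by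
    have := congrArg conj c2; simpa [Complex.conj_ofNat] using this
  have c1' : 2 * conj (p1 z) - conj z * conj (p2 z) - z * p0 z = 1 := by
    have := congrArg conj c1; simp only [map_sub, map_mul, Complex.conj_conj, hp, map_one] at this
    have h2 : conj (2 : ℂ) = 2 := Complex.conj_ofNat 2
    rw [h2] at this
    exact this
  have c0 : 2 * p0 z - z * p1 z - conj z * conj (p1 z) = 3 - cval z := by
    have e : conj (p0 z) = -Complex.I * conj z ^ 3 * (4 * conj z + 3) - conj z := by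
      unfold p0; simp [Complex.conj_ofNat]
    have e1 : conj (p1 z) = -Complex.I * conj z ^ 2 * (3 * conj z + 2) := by
      unfold p1; simp [Complex.conj_ofNat]
    have : 2 * p0 z = p0 z + conj (p0 z) := by rw [hp]; ring
    rw [this, e, e1]
    unfold p0 p1 cval
    ring
  simp only [map_sub, map_mul, hr0', Complex.conj_conj, Complex.conj_I]
  have h2 : conj (2 : ℂ) = 2 := Complex.conj_ofNat 2
  rw [h2]
  linear_combination (-r0) * c0 + (-r1) * c1 + (-conj r1) * c1' + (-r2) * c2 + (-conj r2) * c2'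
    + (-r3) * c3 + (-conj r3) * c3' + r4 * c4 + conj r4 * c4'

end Pool.Agent.R992.HC
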