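import Mathlib

open scoped InnerProductSpace ComplexConjugate ENNReal

namespace Pool.Agent.R992.HC

/-- The Hilbert space of square summable complex sequences indexed by the integers. -/
noncomputable abbrev HH := lp (fun _ : ℤ => ℂ) 2

theorem summable_sq (x : HH) : Summable (fun n : ℤ => ‖x n‖ ^ 2) := by
  have h := lp.memℓp x
  rw [memℓp_gen_iff (by norm_num)] at h
  simpa using h

theorem memlp_of_summable {f : ℤ → ℂ} (h : Summable (fun n : ℤ => ‖f n‖ ^ 2)) : Memℓp f 2 := by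
  rw [memℓp_gen_iff (by norm_num)]
  simpa using h

/-- Build an element of `HH` from a square summable sequence. -/
noncomputable def mk2 (f : ℤ → ℂ) (h : Summable (fun n : ℤ => ‖f n‖ ^ 2)) : HH :=
  ⟨f, memlp_of_summable h⟩

@[simp] theorem mk2_apply (f : ℤ → ℂ) (h : Summable (fun n : ℤ => ‖f n‖ ^ 2)) (n : ℤ) :
    (mk2 f h) n = f n := rfl

theorem norm_sq_eq (x : HH) : ‖x‖ ^ 2 = ∑' n : ℤ, ‖x n‖ ^ 2 := by
  have h := lp.norm_rpow_eq_tsum (p := 2) (by norm_num) x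
  simpa using h

theorem summable_shift (m : ℤ) (x : HH) : Summable (fun n : ℤ => ‖x (n - m)‖ ^ 2) := by
  have := (Equiv.subRight m).summable_iff.mpr (summable_sq x)
  simpa [Function.comp_def] using this

/-- The shift by `m`, `(sh m x) n = x (n - m)`. -/
noncomputable def sh (m : ℤ) : HH →ₗᵢ[ℂ] HH where
  toFun x := mk2 (fun n => x (n - m)) (summable_shift m x)
  map_add' x y := by
    ext n
    simp
  map_smul' c x := by
    ext n
    simp
  norm_map' x := by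
    have h1 : ‖mk2 (fun n => x (n - m)) (summable_shift m x)‖ ^ 2 = ‖x‖ ^ 2 := by
      rw [norm_sq_eq, norm_sq_eq]
      exact (Equiv.subRight m).tsum_eq (fun n => ‖x n‖ ^ 2)
    have h2 := (sq_eq_sq₀ (norm_nonneg _) (norm_nonneg _)).mp h1
    exact h2

@[simp] theorem sh_apply (m : ℤ) (x : HH) (n : ℤ) : (sh m x) n = x (n - m) := rfl

theorem sh_sh (i j : ℤ) (x : HH) : sh i (sh j x) = sh (i + j) x := by
  ext n
  simp [sub_sub]

@[simp] theorem sh_zero (x : HH) : sh 0 x = x := by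
  ext n
  simp

theorem inner_eq (x y : HH) : ⟪x, y⟫_ℂ = ∑' n : ℤ, ⟪x n, y n⟫_ℂ := lp.inner_eq_tsum x y

theorem inner_sh_sh (i j : ℤ) (x y : HH) : ⟪sh i x, sh j y⟫_ℂ = ⟪x, sh (j - i) y⟫_ℂ := by
  have h : sh j y = sh i (sh (j - i) y) := by
    rw [sh_sh]; congr 2; ring
  rw [h, LinearIsometry.inner_map_map]

theorem inner_sh_neg (m : ℤ) (x : HH) : ⟪x, sh (-m) x⟫_ℂ = conj ⟪x, sh m x⟫_ℂ := by
  rw [inner_conj_symm]
  have := inner_sh_sh m 0 x x
  simp only [sh_zero, zero_sub] at this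
  exact this.symm

theorem norm_inner_sh_le (m : ℤ) (x : HH) : ‖⟪x, sh m x⟫_ℂ‖ ≤ ‖x‖ ^ 2 := by
  have := norm_inner_le_norm (𝕜 := ℂ) x (sh m x)
  rw [LinearIsometry.norm_map] at this
  nlinarith

/-- Disjointly supported sequences are orthogonal. -/
theorem inner_eq_zero_of_disjoint (x y : HH) (h : ∀ n, x n = 0 ∨ y n = 0) : ⟪x, y⟫_ℂ = 0 := by
  rw [inner_eq]
  have : ∀ n, ⟪x n, y n⟫_ℂ = 0 := by
    intro n
    rcases h n with h | h <;> simp [h]
  rw [tsum_congr this, tsum_zero]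

theorem sum_sq_le (x : HH) (s : Finset ℤ) : ∑ n ∈ s, ‖x n‖ ^ 2 ≤ ‖x‖ ^ 2 := by
  rw [norm_sq_eq]
  exact (summable_sq x).sum_le_tsum s (fun n _ => by positivity)

theorem two_coord_le (x : HH) {i j : ℤ} (hij : i ≠ j) : ‖x i‖ ^ 2 + ‖x j‖ ^ 2 ≤ ‖x‖ ^ 2 := by
  have := sum_sq_le x {i, j}
  rwa [Finset.sum_pair hij] at this

theorem coord_le (x : HH) (i : ℤ) : ‖x i‖ ≤ ‖x‖ := by
  have := sum_sq_le x {i}
  rw [Finset.sum_singleton] at this
  exact (sq_le_sq₀ (norm_nonneg _) (norm_nonneg _)).mp this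

theorem norm_sq_of_support (x : HH) (s : Finset ℤ) (h : ∀ n ∉ s, x n = 0) :
    ‖x‖ ^ 2 = ∑ n ∈ s, ‖x n‖ ^ 2 := by
  rw [norm_sq_eq]
  exact tsum_eq_sum (fun n hn => by simp [h n hn])

end Pool.Agent.R992.HC
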