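import Pool.Agent.R992.HC.Geom

open scoped InnerProductSpace ComplexConjugate

namespace Pool.Agent.R992.HC

theorem halfSites_sub (u : ℂ) (c : ℝ) : halfSites u c ⊆ honeycomb := fun _ h => h.1

/-- representative of the A-site of level `n` in the strip -/
noncomputable def iA (n : ℤ) : ℂ := SA (3 * (-((-7 * n) / 26)) - n) (-((-7 * n) / 26))
/-- representative of the B-site of level `n` in the strip -/
noncomputable def iB (n : ℤ) : ℂ := SB (3 * (-((-7 * n + 4) / 26)) - n) (-((-7 * n + 4) / 26))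

theorem iA_inj : Function.Injective iA := by
  intro m n h
  have := SA_inj h
  omega

theorem iB_inj : Function.Injective iB := by
  intro m n h
  have := SB_inj h
  omega

/-- the strip -/
def strip : Set ℂ := {x | 0 ≤ ⟪edgeVec 3 1, x⟫_ℝ ∧ ⟪edgeVec 3 1, x⟫_ℝ < ‖edgeVec 3 1‖ ^ 2}

theorem SA_strip {p q : ℤ} : SA p q ∈ strip ↔ 0 ≤ 7 * p + 5 * q ∧ 7 * p + 5 * q < 26 := by
  simp only [strip, Set.mem_setOf_eq, v_SA, v_norm]
  constructor
  · rintro ⟨h1, h2⟩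
    have h3 : ((0:ℤ):ℝ) ≤ ((7 * p + 5 * q : ℤ) : ℝ) := by push_cast at h1 ⊢; linarith
    have h4 : ((7 * p + 5 * q : ℤ) : ℝ) < ((26:ℤ):ℝ) := by push_cast at h2 ⊢; linarith
    exact ⟨by exact_mod_cast h3, by exact_mod_cast h4⟩
  · rintro ⟨h1, h2⟩
    have h3 : ((0:ℤ):ℝ) ≤ ((7 * p + 5 * q : ℤ) : ℝ) := by exact_mod_cast h1
    have h4 : ((7 * p + 5 * q : ℤ) : ℝ) < ((26:ℤ):ℝ) := by exact_mod_cast h2
    push_cast at h3 h4 ⊢
    constructor <;> linarith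

theorem SB_strip {p q : ℤ} : SB p q ∈ strip ↔ 0 ≤ 7 * p + 5 * q + 4 ∧ 7 * p + 5 * q + 4 < 26 := by
  simp only [strip, Set.mem_setOf_eq, v_SB, v_norm]
  constructor
  · rintro ⟨h1, h2⟩
    have h3 : ((0:ℤ):ℝ) ≤ ((7 * p + 5 * q + 4 : ℤ) : ℝ) := by push_cast at h1 ⊢; linarith
    have h4 : ((7 * p + 5 * q + 4 : ℤ) : ℝ) < ((26:ℤ):ℝ) := by push_cast at h2 ⊢; linarith
    exact ⟨by exact_mod_cast h3, by exact_mod_cast h4⟩
  · rintro ⟨h1, h2⟩
    have h3 : ((0:ℤ):ℝ) ≤ ((7 * p + 5 * q + 4 : ℤ) : ℝ) := by exact_mod_cast h1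
    have h4 : ((7 * p + 5 * q + 4 : ℤ) : ℝ) < ((26:ℤ):ℝ) := by exact_mod_cast h2
    push_cast at h3 h4 ⊢
    constructor <;> linarith

theorem iA_strip (n : ℤ) : iA n ∈ strip := by
  unfold iA
  rw [SA_strip]
  omega

theorem iB_strip (n : ℤ) : iB n ∈ strip := by
  unfold iB
  rw [SB_strip]
  omega

theorem SA_strip_eq {p q : ℤ} (h : SA p q ∈ strip) : SA p q = iA (3 * q - p) := by
  rw [SA_strip] at h
  unfold iA
  congr 1 <;> omega

theorem SB_strip_eq {p q : ℤ} (h : SB p q ∈ strip) : SB p q = iB (3 * q - p) := by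
  rw [SB_strip] at h
  unfold iB
  congr 1 <;> omega

/-! ### From edge states to sequences -/

theorem ψ_A {k : Real.Angle} {E : ℝ} {ψ : ℂ → ℂ}
    (h : IsEdgeState (edgeVec 3 1) u0 (1 / 2) k E ψ) (p q : ℤ) :
    ψ (SA p q) = (k.toCircle : ℂ) ^ q * ψ (SA (-(3 * q - p)) 0) := by
  set w : ℂ := (k.toCircle : ℂ) with hw
  have hw0 : w ≠ 0 := Circle.coe_ne_zero _
  by_cases hn : 1 ≤ 3 * q - p
  · have step : ∀ (j : ℕ) (p' q' : ℤ), 1 ≤ 3 * q' - p' →
        ψ (SA (p' + 3 * j) (q' + j)) = w ^ j * ψ (SA p' q') := by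
      intro j
      induction j with
      | zero => intro p' q' _; simp
      | succ j ih =>
        intro p' q' hpq
        have h1 := h.quasi (SA (p' + 3 * j) (q' + j)) (SA_mem.mpr (by omega))
        rw [SA_add, ih p' q' hpq] at h1
        have e1 : p' + 3 * ((j + 1 : ℕ) : ℤ) = p' + 3 * j + 3 := by push_cast; ring
        have e2 : q' + ((j + 1 : ℕ) : ℤ) = q' + j + 1 := by push_cast; ring
        rw [e1, e2, h1, pow_succ]
        ring
    rcases le_total 0 q with hq | hq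
    · obtain ⟨j, rfl⟩ := Int.eq_ofNat_of_zero_le hq
      have h1 := step j (-(3 * (j:ℤ) - p)) 0 (by omega)
      have e1 : -(3 * (j:ℤ) - p) + 3 * j = p := by ring
      rw [e1, zero_add] at h1
      rw [h1, zpow_natCast]
    · obtain ⟨j, hj⟩ := Int.eq_ofNat_of_zero_le (show 0 ≤ -q by omega)
      have h1 := step j p q hn
      have e1 : p + 3 * (j:ℤ) = -(3 * q - p) := by omega
      have e2 : q + (j:ℤ) = 0 := by omega
      rw [e1, e2] at h1
      rw [h1]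
      have e3 : q = -(j:ℤ) := by omega
      rw [e3, zpow_neg, zpow_natCast, ← mul_assoc, inv_mul_cancel₀ (pow_ne_zero _ hw0), one_mul]
  · have h1 : ψ (SA p q) = 0 := h.supp _ (fun hm => hn (SA_mem.mp hm))
    have h2 : ψ (SA (-(3 * q - p)) 0) = 0 :=
      h.supp _ (fun hm => by have := SA_mem.mp hm; omega)
    rw [h1, h2, mul_zero]

theorem ψ_B {k : Real.Angle} {E : ℝ} {ψ : ℂ → ℂ}
    (h : IsEdgeState (edgeVec 3 1) u0 (1 / 2) k E ψ) (p q : ℤ) :
    ψ (SB p q) = (k.toCircle : ℂ) ^ q * ψ (SB (-(3 * q - p)) 0) := by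
  set w : ℂ := (k.toCircle : ℂ) with hw
  have hw0 : w ≠ 0 := Circle.coe_ne_zero _
  by_cases hn : 0 ≤ 3 * q - p
  · have step : ∀ (j : ℕ) (p' q' : ℤ), 0 ≤ 3 * q' - p' →
        ψ (SB (p' + 3 * j) (q' + j)) = w ^ j * ψ (SB p' q') := by
      intro j
      induction j with
      | zero => intro p' q' _; simp
      | succ j ih =>
        intro p' q' hpq
        have h1 := h.quasi (SB (p' + 3 * j) (q' + j)) (SB_mem.mpr (by omega))
        rw [SB_add, ih p' q' hpq] at h1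
        have e1 : p' + 3 * ((j + 1 : ℕ) : ℤ) = p' + 3 * j + 3 := by push_cast; ring
        have e2 : q' + ((j + 1 : ℕ) : ℤ) = q' + j + 1 := by push_cast; ring
        rw [e1, e2, h1, pow_succ]
        ring
    rcases le_total 0 q with hq | hq
    · obtain ⟨j, rfl⟩ := Int.eq_ofNat_of_zero_le hq
      have h1 := step j (-(3 * (j:ℤ) - p)) 0 (by omega)
      have e1 : -(3 * (j:ℤ) - p) + 3 * j = p := by ring
      rw [e1, zero_add] at h1
      rw [h1, zpow_natCast]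
    · obtain ⟨j, hj⟩ := Int.eq_ofNat_of_zero_le (show 0 ≤ -q by omega)
      have h1 := step j p q hn
      have e1 : p + 3 * (j:ℤ) = -(3 * q - p) := by omega
      have e2 : q + (j:ℤ) = 0 := by omega
      rw [e1, e2] at h1
      rw [h1]
      have e3 : q = -(j:ℤ) := by omega
      rw [e3, zpow_neg, zpow_natCast, ← mul_assoc, inv_mul_cancel₀ (pow_ne_zero _ hw0), one_mul]
  · have h1 : ψ (SB p q) = 0 := h.supp _ (fun hm => hn (SB_mem.mp hm))
    have h2 : ψ (SB (-(3 * q - p)) 0) = 0 :=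
      h.supp _ (fun hm => by have := SB_mem.mp hm; omega)
    rw [h1, h2, mul_zero]

theorem seq_of_state {k : Real.Angle} {E : ℝ} {ψ : ℂ → ℂ}
    (h : IsEdgeState (edgeVec 3 1) u0 (1 / 2) k E ψ) :
    ∃ a b : HH, EdgeSeq (k.toCircle : ℂ) E a b ∧ ¬ ((∀ n, a n = 0) ∧ (∀ n, b n = 0)) := by
  have hA := ψ_A h
  have hB := ψ_B h
  set w : ℂ := (k.toCircle : ℂ) with hw
  have hwn : ‖w‖ = 1 := Circle.norm_coe _
  have hw0 : w ≠ 0 := Circle.coe_ne_zero _
  have hwc : w⁻¹ = conj w := Complex.inv_eq_conj hwn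
  have hsA : Summable (fun n : ℤ => ‖ψ (SA (-n) 0)‖ ^ 2) := by
    have hinj : Function.Injective (fun n : {n : ℤ // 1 ≤ n} =>
        (⟨iA n, ⟨SA_mem.mpr (by have := n.2; omega), iA_strip n⟩⟩ :
          {x : ℂ // x ∈ halfSites u0 (1 / 2) ∧ 0 ≤ ⟪edgeVec 3 1, x⟫_ℝ ∧
            ⟪edgeVec 3 1, x⟫_ℝ < ‖edgeVec 3 1‖ ^ 2})) := by
      intro m n hmn
      have := Subtype.ext_iff.mp hmn
      exact Subtype.ext (iA_inj this)
    have h1 := h.summable.comp_injective hinj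
    have h2 : ((fun n : ℤ => ‖ψ (SA (-n) 0)‖ ^ 2) ∘ (Subtype.val : {n : ℤ // 1 ≤ n} → ℤ)) =
        ((fun x : {x : ℂ // x ∈ halfSites u0 (1 / 2) ∧ 0 ≤ ⟪edgeVec 3 1, x⟫_ℝ ∧
            ⟪edgeVec 3 1, x⟫_ℝ < ‖edgeVec 3 1‖ ^ 2} => ‖ψ x‖ ^ 2) ∘ (fun n : {n : ℤ // 1 ≤ n} =>
        (⟨iA n, ⟨SA_mem.mpr (by have := n.2; omega), iA_strip n⟩⟩ :
          {x : ℂ // x ∈ halfSites u0 (1 / 2) ∧ 0 ≤ ⟪edgeVec 3 1, x⟫_ℝ ∧
            ⟪edgeVec 3 1, x⟫_ℝ < ‖edgeVec 3 1‖ ^ 2}))) := by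
      funext n
      simp only [Function.comp_apply, iA]
      rw [hA (3 * (-((-7 * (n:ℤ)) / 26)) - n) _, norm_mul, norm_zpow, hwn, one_zpow, one_mul]
      congr 4
      ring
    rw [← h2] at h1
    refine (Function.Injective.summable_iff Subtype.val_injective ?_).mp h1
    intro n hn
    have : ¬ 1 ≤ n := by
      intro h1; exact hn ⟨⟨n, h1⟩, rfl⟩
    rw [h.supp _ (fun hm => by have := SA_mem.mp hm; omega)]
    simp
  have hsB : Summable (fun n : ℤ => ‖ψ (SB (-n) 0)‖ ^ 2) := by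
    have hinj : Function.Injective (fun n : {n : ℤ // 0 ≤ n} =>
        (⟨iB n, ⟨SB_mem.mpr (by have := n.2; omega), iB_strip n⟩⟩ :
          {x : ℂ // x ∈ halfSites u0 (1 / 2) ∧ 0 ≤ ⟪edgeVec 3 1, x⟫_ℝ ∧
            ⟪edgeVec 3 1, x⟫_ℝ < ‖edgeVec 3 1‖ ^ 2})) := by
      intro m n hmn
      have := Subtype.ext_iff.mp hmn
      exact Subtype.ext (iB_inj this)
    have h1 := h.summable.comp_injective hinj
    have h2 : ((fun n : ℤ => ‖ψ (SB (-n) 0)‖ ^ 2) ∘ (Subtype.val : {n : ℤ // 0 ≤ n} → ℤ)) =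
        ((fun x : {x : ℂ // x ∈ halfSites u0 (1 / 2) ∧ 0 ≤ ⟪edgeVec 3 1, x⟫_ℝ ∧
            ⟪edgeVec 3 1, x⟫_ℝ < ‖edgeVec 3 1‖ ^ 2} => ‖ψ x‖ ^ 2) ∘ (fun n : {n : ℤ // 0 ≤ n} =>
        (⟨iB n, ⟨SB_mem.mpr (by have := n.2; omega), iB_strip n⟩⟩ :
          {x : ℂ // x ∈ halfSites u0 (1 / 2) ∧ 0 ≤ ⟪edgeVec 3 1, x⟫_ℝ ∧
            ⟪edgeVec 3 1, x⟫_ℝ < ‖edgeVec 3 1‖ ^ 2}))) := by
      funext n
      simp only [Function.comp_apply, iB]
      rw [hB (3 * (-((-7 * (n:ℤ) + 4) / 26)) - n) _, norm_mul, norm_zpow, hwn, one_zpow, one_mul]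
      congr 4
      ring
    rw [← h2] at h1
    refine (Function.Injective.summable_iff Subtype.val_injective ?_).mp h1
    intro n hn
    have : ¬ 0 ≤ n := by
      intro h1; exact hn ⟨⟨n, h1⟩, rfl⟩
    rw [h.supp _ (fun hm => by have := SB_mem.mp hm; omega)]
    simp
  refine ⟨mk2 _ hsA, mk2 _ hsB, ⟨?_, ?_, ?_, ?_⟩, ?_⟩
  · intro n hn
    rw [mk2_apply]
    exact h.supp _ (fun hm => by have := SA_mem.mp hm; omega)
  · intro n hn
    rw [mk2_apply]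
    exact h.supp _ (fun hm => by have := SB_mem.mp hm; omega)
  · intro n hn
    simp only [mk2_apply]
    have h1 := h.eigen (SA (-n) 0) (SA_mem.mpr (by omega))
    rw [edgeHam_A _ (halfSites_sub _ _) ψ h.supp] at h1
    rw [← h1, hB (-n) (0 - 1), show -(3 * (0 - 1) - -n) = -(n - 3) by ring,
      show -n - 1 = -(n + 1) by ring, show (0:ℤ) - 1 = -1 from rfl, zpow_neg_one, hwc]
  · intro n hn
    simp only [mk2_apply]
    have h1 := h.eigen (SB (-n) 0) (SB_mem.mpr (by omega))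
    rw [edgeHam_B _ (halfSites_sub _ _) ψ h.supp] at h1
    rw [← h1, hA (-n) (0 + 1), show -(3 * (0 + 1) - -n) = -(n + 3) by ring,
      show -n + 1 = -(n - 1) by ring, show (0:ℤ) + 1 = 1 from rfl, zpow_one]
  · rintro ⟨h1, h2⟩
    apply h.ne_zero
    funext x
    by_cases hx : x ∈ halfSites u0 (1 / 2)
    · rcases mem_honeycomb hx.1 with ⟨p, q, rfl⟩ | ⟨p, q, rfl⟩
      · rw [hA]
        have := h1 (3 * q - p)
        rw [mk2_apply] at this
        rw [this]; simp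
      · rw [hB]
        have := h2 (3 * q - p)
        rw [mk2_apply] at this
        rw [this]; simp
    · rw [h.supp x hx]; rfl

/-! ### From sequences to edge states -/

open Classical in
/-- The function on the plane built from the sequences. -/
noncomputable def mkψ (w : ℂ) (a b : HH) (x : ℂ) : ℂ :=
  if h : ∃ pq : ℤ × ℤ, x = SA pq.1 pq.2 then
    w ^ (h.choose.2) * a (3 * h.choose.2 - h.choose.1)
  else if h : ∃ pq : ℤ × ℤ, x = SB pq.1 pq.2 then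
    w ^ (h.choose.2) * b (3 * h.choose.2 - h.choose.1)
  else 0

theorem mkψ_A (w : ℂ) (a b : HH) (p q : ℤ) : mkψ w a b (SA p q) = w ^ q * a (3 * q - p) := by
  have h : ∃ pq : ℤ × ℤ, SA p q = SA pq.1 pq.2 := ⟨(p, q), rfl⟩
  unfold mkψ
  rw [dif_pos h]
  obtain ⟨h1, h2⟩ := SA_inj h.choose_spec
  rw [← h1, ← h2]

theorem mkψ_B (w : ℂ) (a b : HH) (p q : ℤ) : mkψ w a b (SB p q) = w ^ q * b (3 * q - p) := by
  have h : ∃ pq : ℤ × ℤ, SB p q = SB pq.1 pq.2 := ⟨(p, q), rfl⟩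
  have hn : ¬ ∃ pq : ℤ × ℤ, SB p q = SA pq.1 pq.2 := by
    rintro ⟨pq, hpq⟩
    exact SA_ne_SB _ _ _ _ hpq.symm
  unfold mkψ
  rw [dif_neg hn, dif_pos h]
  obtain ⟨h1, h2⟩ := SB_inj h.choose_spec
  rw [← h1, ← h2]

theorem mkψ_other (w : ℂ) (a b : HH) (x : ℂ) (h : x ∉ honeycomb) : mkψ w a b x = 0 := by
  have h1 : ¬ ∃ pq : ℤ × ℤ, x = SA pq.1 pq.2 := by
    rintro ⟨pq, rfl⟩; exact h (Or.inl ⟨pq.1, pq.2, rfl⟩)
  have h2 : ¬ ∃ pq : ℤ × ℤ, x = SB pq.1 pq.2 := by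
    rintro ⟨pq, rfl⟩; exact h (Or.inr ⟨pq.1, pq.2, rfl⟩)
  unfold mkψ
  rw [dif_neg h1, dif_neg h2]

open Classical in
theorem state_of_seq (k : Real.Angle) (E : ℝ) (a b : HH) (h : EdgeSeq (k.toCircle : ℂ) E a b)
    (hne : a ≠ 0) : IsEdgeState (edgeVec 3 1) u0 (1 / 2) k E (mkψ (k.toCircle : ℂ) a b) := by
  set w : ℂ := (k.toCircle : ℂ) with hw
  have hwn : ‖w‖ = 1 := Circle.norm_coe _
  have hw0 : w ≠ 0 := Circle.coe_ne_zero _
  have hwc : w⁻¹ = conj w := Complex.inv_eq_conj hwn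
  have hsupp : ∀ x, x ∉ halfSites u0 (1 / 2) → mkψ w a b x = 0 := by
    intro x hx
    by_cases hc : x ∈ honeycomb
    · rcases mem_honeycomb hc with ⟨p, q, rfl⟩ | ⟨p, q, rfl⟩
      · rw [SA_mem] at hx
        rw [mkψ_A, h.ha _ (by omega), mul_zero]
      · rw [SB_mem] at hx
        rw [mkψ_B, h.hb _ (by omega), mul_zero]
    · exact mkψ_other w a b x hc
  refine ⟨hsupp, ?_, ?_, ?_, ?_⟩
  · intro h0
    apply hne
    ext n
    have h1 := mkψ_A w a b (-n) 0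
    rw [h0] at h1
    simp only [Pi.zero_apply, zpow_zero, one_mul, mul_zero, zero_sub, neg_neg] at h1
    rw [← h1]; rfl
  · intro x hx
    rcases mem_honeycomb hx.1 with ⟨p, q, rfl⟩ | ⟨p, q, rfl⟩
    · rw [SA_add, mkψ_A, mkψ_A, zpow_add_one₀ hw0, show 3 * (q + 1) - (p + 3) = 3 * q - p by ring]
      ring
    · rw [SB_add, mkψ_B, mkψ_B, zpow_add_one₀ hw0, show 3 * (q + 1) - (p + 3) = 3 * q - p by ring]
      ring
  · -- summability
    set FA : ℂ → ℝ := fun x => if x ∈ sitesA ∧ x ∈ strip then ‖mkψ w a b x‖ ^ 2 else 0 with hFA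
    set FB : ℂ → ℝ := fun x => if x ∈ sitesB ∧ x ∈ strip then ‖mkψ w a b x‖ ^ 2 else 0 with hFB
    have hsA : Summable FA := by
      refine (Function.Injective.summable_iff iA_inj ?_).mp ?_
      · intro x hx
        simp only [hFA]
        rw [if_neg]
        rintro ⟨⟨p, q, rfl⟩, h2⟩
        exact hx ⟨_, (SA_strip_eq h2).symm⟩
      · have : FA ∘ iA = fun n => ‖a n‖ ^ 2 := by
          funext n
          simp only [Function.comp_apply, hFA]
          rw [if_pos ⟨⟨_, _, rfl⟩, iA_strip n⟩]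
          unfold iA
          rw [mkψ_A, norm_mul, norm_zpow, hwn, one_zpow, one_mul,
            show 3 * (-((-7 * n) / 26)) - (3 * (-((-7 * n) / 26)) - n) = n by ring]
        rw [this]
        exact summable_sq a
    have hsB : Summable FB := by
      refine (Function.Injective.summable_iff iB_inj ?_).mp ?_
      · intro x hx
        simp only [hFB]
        rw [if_neg]
        rintro ⟨⟨p, q, rfl⟩, h2⟩
        exact hx ⟨_, (SB_strip_eq h2).symm⟩
      · have : FB ∘ iB = fun n => ‖b n‖ ^ 2 := by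
          funext n
          simp only [Function.comp_apply, hFB]
          rw [if_pos ⟨⟨_, _, rfl⟩, iB_strip n⟩]
          unfold iB
          rw [mkψ_B, norm_mul, norm_zpow, hwn, one_zpow, one_mul,
            show 3 * (-((-7 * n + 4) / 26)) - (3 * (-((-7 * n + 4) / 26)) - n) = n by ring]
        rw [this]
        exact summable_sq b
    have hs := (hsA.add hsB).comp_injective (Subtype.val_injective (p := fun x : ℂ =>
      x ∈ halfSites u0 (1 / 2) ∧ 0 ≤ ⟪edgeVec 3 1, x⟫_ℝ ∧ ⟪edgeVec 3 1, x⟫_ℝ < ‖edgeVec 3 1‖ ^ 2))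
    refine hs.congr ?_
    rintro ⟨x, hx1, hx2⟩
    simp only [Function.comp_apply, hFA, hFB]
    rcases mem_honeycomb hx1.1 with ⟨p, q, rfl⟩ | ⟨p, q, rfl⟩
    · rw [if_pos ⟨⟨p, q, rfl⟩, hx2⟩, if_neg, add_zero]
      rintro ⟨⟨p', q', hpq⟩, _⟩
      exact SA_ne_SB _ _ _ _ hpq
    · rw [if_neg, if_pos ⟨⟨p, q, rfl⟩, hx2⟩, zero_add]
      rintro ⟨⟨p', q', hpq⟩, _⟩
      exact SA_ne_SB _ _ _ _ hpq.symm
  · intro x hx
    rcases mem_honeycomb hx.1 with ⟨p, q, rfl⟩ | ⟨p, q, rfl⟩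
    · rw [edgeHam_A _ (halfSites_sub _ _) _ hsupp, mkψ_A, mkψ_B, mkψ_B, mkψ_B,
        zpow_sub_one₀ hw0, hwc, show 3 * q - (p - 1) = 3 * q - p + 1 by ring,
        show 3 * (q - 1) - p = 3 * q - p - 3 by ring]
      have := h.h1 (3 * q - p) (SA_mem.mp hx)
      linear_combination w ^ q * this
    · rw [edgeHam_B _ (halfSites_sub _ _) _ hsupp, mkψ_B, mkψ_A, mkψ_A, mkψ_A,
        zpow_add_one₀ hw0, show 3 * q - (p + 1) = 3 * q - p - 1 by ring,
        show 3 * (q + 1) - p = 3 * q - p + 3 by ring]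
      have := h.h2 (3 * q - p) (SB_mem.mp hx)
      linear_combination w ^ q * this

end Pool.Agent.R992.HC
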